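import Pool.Agent.H.MP_cba12a_lc.RK.Algo

/-!
The learner for unate DNF formulas in which every variable occurs in at most `k` terms, with a
second stage that adds the missing literals one by one.
-/

namespace Pool.Agent.H.MP_cba12a_lc.RM

open Pool.Agent.H.MP_5be563_lc.PT Pool.Agent.H.MP_cba12a_lc Pool.Agent.H.MP_cba12a_lc.RK

/-- the literals which decrease the frequency of the negative samples in the subcube `C` -/
def ils (Θ : ℕ) (V : List Lit) (S : Samples) (C : List Lit) : List Lit :=
  V.filter fun l => (C.all fun l' => !(l'.1 == l.1)) &&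
    decide (2 * Θ * cnt S false (l :: C) [] + cnt S false C [] ≤ Θ * cnt S false C [])

/-- the conjunction `C` and its extensions by one literal -/
def extI (M Θ : ℕ) (V : List Lit) (S : Samples) (C : List Lit) : List (List Lit) :=
  C :: (if (ils Θ V S C).length ≤ M then (ils Θ V S C).map (fun l => l :: C) else [])

/-- one step of the second stage -/
def chStep (N M Θ : ℕ) (V : List Lit) (S : Samples) (cs : List (List Lit)) : List (List Lit) :=
  if (cs.flatMap fun C => extI M Θ V S C).length ≤ N then cs.flatMap fun C => extI M Θ V S C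
  else cs

/-- the second stage -/
def chn (N M Θ D : ℕ) (V : List Lit) (S : Samples) (C : List Lit) : List (List Lit) :=
  (chStep N M Θ V S)^[D] [C]

/-- the candidates with the literal `l0` -/
def candM (N a M Θ D κ : ℕ) (V : List Lit) (S : Samples) (h : List (List Lit)) (l0 : Lit) :
    List (List Lit) :=
  (extR N a V (vis κ V S h l0) S h l0 []).flatMap fun A => chn N M Θ D V S (l0 :: A)

/-- the candidates which pass the test -/
def goodM (A B N a M Θ D κ : ℕ) (V : List Lit) (S : Samples) (h : List (List Lit)) :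
    List (List Lit) :=
  (V.flatMap fun l0 => candM N a M Θ D κ V S h l0).filter fun C => acc8 A B S h C

/-- one round -/
def stepM (A B N a M Θ D κ : ℕ) (V : List Lit) (S : Samples) (h : List (List Lit)) :
    List (List Lit) := (goodM A B N a M Θ D κ V S h).take 1 ++ h

/-- all rounds -/
def coreM (A B R N a M Θ D κ : ℕ) (V : List Lit) (S : Samples) : List (List Lit) :=
  (stepM A B N a M Θ D κ V S)^[R] []

/-! ### Size invariants -/

theorem mem_extI {M Θ : ℕ} {V : List Lit} {S : Samples} {C D : List Lit}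
    (hD : D ∈ extI M Θ V S C) : D = C ∨ ∃ l ∈ V, D = l :: C := by
  unfold extI at hD
  rcases List.mem_cons.1 hD with rfl | hD
  · exact Or.inl rfl
  · right
    split_ifs at hD with hM
    · obtain ⟨l, hl, rfl⟩ := List.mem_map.1 hD
      unfold ils at hl
      exact ⟨l, (List.mem_filter.1 hl).1, rfl⟩
    · exact absurd hD List.not_mem_nil

theorem bd_chStep {N M Θ m : ℕ} {V W : List Lit} {S : Samples} {cs : List (List Lit)}
    (hV : ∀ l ∈ V, l ∈ W) (hcs : Bd (N + 1) m W cs) :
    Bd (N + 1) (m + 1) W (chStep N M Θ V S cs) := by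
  unfold chStep
  split_ifs with hN
  · refine ⟨by omega, ?_⟩
    intro D hD
    obtain ⟨C, hC, hD⟩ := List.mem_flatMap.1 hD
    have h1 := hcs.2 C hC
    rcases mem_extI hD with rfl | ⟨l, hl, rfl⟩
    · exact ⟨by omega, h1.2⟩
    · refine ⟨by rw [List.length_cons]; omega, ?_⟩
      intro l' hl'
      rcases List.mem_cons.1 hl' with rfl | hl'
      · exact hV _ hl
      · exact h1.2 l' hl'
  · exact hcs.mono le_rfl (by omega)

theorem bd_chn (N M Θ : ℕ) {V W : List Lit} (S : Samples) {C : List Lit}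
    (hV : ∀ l ∈ V, l ∈ W) (hC : ∀ l ∈ C, l ∈ W) (j : ℕ) :
    Bd (N + 1) (C.length + j) W ((chStep N M Θ V S)^[j] [C]) := by
  induction j with
  | zero =>
    refine ⟨by simp, ?_⟩
    intro D hD
    rw [Function.iterate_zero, id_eq, List.mem_singleton] at hD
    subst hD
    exact ⟨by omega, hC⟩
  | succ j ih =>
    rw [Function.iterate_succ_apply', ← add_assoc]
    exact bd_chStep hV ih

theorem mem_goodM {A B N a M Θ D κ : ℕ} {V : List Lit} {S : Samples} {h : List (List Lit)}
    {C : List Lit} (hC : C ∈ goodM A B N a M Θ D κ V S h) :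
    (C.length ≤ V.length + a + 1 + D ∧ ∀ l ∈ C, l ∈ V) ∧ acc8 A B S h C = true := by
  unfold goodM at hC
  obtain ⟨h1, h2⟩ := List.mem_filter.1 hC
  refine ⟨?_, h2⟩
  obtain ⟨l0, hl0, h1⟩ := List.mem_flatMap.1 h1
  unfold candM at h1
  obtain ⟨Z, hZ, h1⟩ := List.mem_flatMap.1 h1
  have hZ' := mem_extR (fun l hl => by unfold vis at hl; exact (List.mem_filter.1 hl).1)
    (fun l hl => absurd hl (List.not_mem_nil)) hZ
  have hW' := (bd_chn N M Θ (V := V) (W := V) S (C := l0 :: Z) (fun l hl => hl) (fun l hl => by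
    rcases List.mem_cons.1 hl with rfl | hl
    · exact hl0
    · exact hZ'.2 l hl) D).2 C h1
  have h3 := hZ'.1
  have h4 := hW'.1
  rw [List.length_nil] at h3
  rw [List.length_cons] at h4
  exact ⟨by omega, hW'.2⟩

theorem bd_stepM {A B N a M Θ D κ m : ℕ} {V : List Lit} {S : Samples} {h : List (List Lit)}
    (hh : Bd m (V.length + a + 1 + D) V h) :
    Bd (m + 1) (V.length + a + 1 + D) V (stepM A B N a M Θ D κ V S h) := by
  unfold stepM
  refine ⟨?_, ?_⟩
  · have h1 := hh.1
    have h2 : (List.take 1 (goodM A B N a M Θ D κ V S h)).length ≤ 1 := List.length_take_le _ _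
    rw [List.length_append]
    omega
  · intro C hC
    rcases List.mem_append.1 hC with hC | hC
    · exact (mem_goodM (List.mem_of_mem_take hC)).1
    · exact hh.2 C hC

theorem bd_coreM (A B N a M Θ D κ : ℕ) (V : List Lit) (S : Samples) (j : ℕ) :
    Bd j (V.length + a + 1 + D) V ((stepM A B N a M Θ D κ V S)^[j] []) := by
  induction j with
  | zero => exact ⟨by simp, by simp⟩
  | succ j ih => rw [Function.iterate_succ_apply']; exact bd_stepM ih

/-! ### Polynomial time -/

section poly

variable {α : Type} [Enc α]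

@[fun_prop]
theorem poly_ils {Θ : α → ℕ} {V : α → List Lit} {S : α → Samples} {C : α → List Lit}
    (hΘ : Poly Θ) (hV : Poly V) (hS : Poly S) (hC : Poly C) :
    Poly (fun a => ils (Θ a) (V a) (S a) (C a)) := by
  unfold ils
  fun_prop

@[fun_prop]
theorem poly_extI {M Θ : α → ℕ} {V : α → List Lit} {S : α → Samples} {C : α → List Lit}
    (hM : Poly M) (hΘ : Poly Θ) (hV : Poly V) (hS : Poly S) (hC : Poly C) :
    Poly (fun a => extI (M a) (Θ a) (V a) (S a) (C a)) := by
  unfold extI
  fun_prop

@[fun_prop]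
theorem poly_chStep {N M Θ : α → ℕ} {V : α → List Lit} {S : α → Samples}
    {cs : α → List (List Lit)} (hN : Poly N) (hM : Poly M) (hΘ : Poly Θ) (hV : Poly V)
    (hS : Poly S) (hcs : Poly cs) :
    Poly (fun a => chStep (N a) (M a) (Θ a) (V a) (S a) (cs a)) := by
  unfold chStep
  fun_prop

@[fun_prop]
theorem poly_chn {N M Θ D : α → ℕ} {V : α → List Lit} {S : α → Samples} {C : α → List Lit}
    (hN : Poly N) (hM : Poly M) (hΘ : Poly Θ) (hD : Poly D) (hV : Poly V) (hS : Poly S)
    (hC : Poly C) : Poly (fun p => chn (N p) (M p) (Θ p) (D p) (V p) (S p) (C p)) := by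
  unfold chn
  refine Poly.iterate (f := fun p L => chStep (N p) (M p) (Θ p) (V p) (S p) L)
    (s := fun p => [C p]) (n := D)
    (B := fun p => (sz (N p) + 1) * ((sz (C p) + sz (D p)) * (sz (V p ++ C p) + 1) + 2) + 1)
    (by fun_prop) (by fun_prop) hD ?_ ?_
  · have hVC : Poly fun p => V p ++ C p := by fun_prop
    exact ((hN.sz_le.add (PBdd.const 1)).mul (((hC.sz_le.add hD.sz_le).mul
      (hVC.sz_le.add (PBdd.const 1))).add (PBdd.const 2))).add (PBdd.const 1)
  · intro p j hj
    have h := (bd_chn (N p) (M p) (Θ p) (V := V p) (W := V p ++ C p) (S p) (C := C p)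
      (fun l hl => List.mem_append_left _ hl) (fun l hl => List.mem_append_right _ hl) j).mono
      (m' := sz (N p) + 1) (k' := sz (C p) + sz (D p)) ?_ ?_
    · exact h.sz_le
    · simp only [sz_nat]
      omega
    · have := length_lt_sz (C p)
      simp only [sz_nat]
      omega

@[fun_prop]
theorem poly_candM {N a M Θ D κ : α → ℕ} {V : α → List Lit} {S : α → Samples}
    {h : α → List (List Lit)} {l : α → Lit} (hN : Poly N) (ha : Poly a) (hM : Poly M)
    (hΘ : Poly Θ) (hD : Poly D) (hκ : Poly κ) (hV : Poly V) (hS : Poly S) (hh : Poly h)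
    (hl : Poly l) :
    Poly (fun p => candM (N p) (a p) (M p) (Θ p) (D p) (κ p) (V p) (S p) (h p) (l p)) := by
  unfold candM
  fun_prop

@[fun_prop]
theorem poly_goodM {A B N a M Θ D κ : α → ℕ} {V : α → List Lit} {S : α → Samples}
    {h : α → List (List Lit)} (hA : Poly A) (hB : Poly B) (hN : Poly N) (ha : Poly a)
    (hM : Poly M) (hΘ : Poly Θ) (hD : Poly D) (hκ : Poly κ) (hV : Poly V) (hS : Poly S)
    (hh : Poly h) :
    Poly (fun p => goodM (A p) (B p) (N p) (a p) (M p) (Θ p) (D p) (κ p) (V p) (S p) (h p)) := by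
  unfold goodM
  fun_prop

@[fun_prop]
theorem poly_stepM {A B N a M Θ D κ : α → ℕ} {V : α → List Lit} {S : α → Samples}
    {h : α → List (List Lit)} (hA : Poly A) (hB : Poly B) (hN : Poly N) (ha : Poly a)
    (hM : Poly M) (hΘ : Poly Θ) (hD : Poly D) (hκ : Poly κ) (hV : Poly V) (hS : Poly S)
    (hh : Poly h) :
    Poly (fun p => stepM (A p) (B p) (N p) (a p) (M p) (Θ p) (D p) (κ p) (V p) (S p) (h p)) := by
  unfold stepM
  fun_prop

@[fun_prop]
theorem poly_coreM {A B R N a M Θ D κ : α → ℕ} {V : α → List Lit} {S : α → Samples}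
    (hA : Poly A) (hB : Poly B) (hR : Poly R) (hN : Poly N) (ha : Poly a) (hM : Poly M)
    (hΘ : Poly Θ) (hD : Poly D) (hκ : Poly κ) (hV : Poly V) (hS : Poly S) :
    Poly (fun p => coreM (A p) (B p) (R p) (N p) (a p) (M p) (Θ p) (D p) (κ p) (V p)
      (S p)) := by
  unfold coreM
  refine Poly.iterate (f := fun p L => stepM (A p) (B p) (N p) (a p) (M p) (Θ p) (D p) (κ p)
      (V p) (S p) L)
    (s := fun _ => []) (n := R)
    (B := fun p => sz (R p) * ((sz (V p) + sz (a p) + 1 + sz (D p)) * (sz (V p) + 1) + 2) + 1)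
    (by fun_prop) (by fun_prop) hR ?_ ?_
  · exact (hR.sz_le.mul (((((hV.sz_le.add ha.sz_le).add (PBdd.const 1)).add hD.sz_le).mul
      (hV.sz_le.add (PBdd.const 1))).add (PBdd.const 2))).add (PBdd.const 1)
  · intro p j hj
    have h := (bd_coreM (A p) (B p) (N p) (a p) (M p) (Θ p) (D p) (κ p) (V p) (S p) j).mono
      (m' := sz (R p)) (k' := sz (V p) + sz (a p) + 1 + sz (D p)) ?_ ?_
    · exact h.sz_le
    · refine hj.trans ?_
      simp only [sz_nat]; omega
    · have := length_lt_sz (V p)
      simp only [sz_nat]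
      omega

end poly

end Pool.Agent.H.MP_cba12a_lc.RM
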