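import Pool.Agent.H.MP_cba12a_lc.RM.Defs
import Pool.Agent.H.MP_cba12a_lc.RK.Near

/-!
Some missing variable of a term decreases the measure of the false positives.
-/

namespace Pool.Agent.H.MP_cba12a_lc.RM

open Finset Pool.Agent.H.MP_cba12a_lc Pool.Agent.H.MP_cba12a_lc.RK Pool.Agent.H.MP_cba12a_lc.RL

variable {n : ℕ} {o : Fin n → Bool} {q : (Fin n → Bool) → Bool}

private theorem NearZ_flp (i : Fin n) (P : (Fin n → Bool) → Prop) :
    pr (fun x => P (flp i x)) = pr P := by
  unfold pr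
  exact mu_flp i (fun x => @decide (P x) (Classical.propDecidable _))

private theorem NearZ_add {P Q R : (Fin n → Bool) → Prop} (h : ∀ x, P x ↔ Q x ∨ R x)
    (h' : ∀ x, Q x → ¬ R x) : pr P = pr Q + pr R := by
  classical
  unfold pr
  refine mu_eq_add (fun x => ?_) (fun x hx => ?_)
  · rw [decide_eq_true_iff, decide_eq_true_iff, decide_eq_true_iff]
    exact h x
  · rw [decide_eq_true_iff, decide_eq_true_iff] at hx
    exact h' x hx.1 hx.2

private theorem NearZ_on {K : Finset (Fin n)} {j : Fin n} (hj : j ∉ K) (x : Fin n → Bool) :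
    On o K (flp j x) ↔ On o K x := by
  constructor
  · intro h i hi
    have h3 : i ≠ j := fun hc => hj (hc ▸ hi)
    rw [← flp_ne h3 x]
    exact h i hi
  · intro h i hi
    have h3 : i ≠ j := fun hc => hj (hc ▸ hi)
    rw [flp_ne h3 x]
    exact h i hi

private theorem NearZ_ins {K : Finset (Fin n)} {j : Fin n} (x : Fin n → Bool) :
    On o (insert j K) x ↔ x j = o j ∧ On o K x := by
  constructor
  · intro h
    exact ⟨h j (mem_insert_self _ _), fun i hi => h i (mem_insert_of_mem hi)⟩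
  · rintro ⟨h1, h2⟩ i hi
    rcases mem_insert.1 hi with rfl | hi
    · exact h1
    · exact h2 i hi

/- PROOF. The points with `On o K`, `q x = false` are those with `x j = o j` (measure
`zz (insert j K)`), and those with `x j ≠ o j`. The flip in direction `j` maps the former onto
the points with `On o K x`, `x j ≠ o j`, `q (flp j x) = false`; for these `q x = false` by monotonicity
(`hq`, `up_flp`). The remaining points with `On o K`, `x j ≠ o j`, `q x = false` have
`q (flp j x) = true`, and the flip maps them onto those of `inf` (`mu_flp`, see the proof of `near_aux`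
in RK/Near.lean). -/
theorem inf_zz (hq : Up o q) {K : Finset (Fin n)} {j : Fin n} (hj : j ∉ K) :
    inf o q K j = zz o q K - 2 * zz o q (insert j K) := by
  have hb : ∀ a b : Bool, a ≠ b ↔ a = !b := by decide
  -- the points of the subcube are split by the value at `j`
  have h1 : zz o q K = zz o q (insert j K) +
      pr fun x => On o K x ∧ x j = !(o j) ∧ q x = false := by
    unfold zz
    refine NearZ_add (fun x => ?_) (fun x hx hx' => ?_)
    · rw [NearZ_ins]
      constructor
      · rintro ⟨h1, h2⟩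
        by_cases h3 : x j = o j
        · exact Or.inl ⟨⟨h3, h1⟩, h2⟩
        · exact Or.inr ⟨h1, (hb _ _).1 h3, h2⟩
      · rintro (⟨⟨-, h1⟩, h2⟩ | ⟨h1, -, h2⟩)
        · exact ⟨h1, h2⟩
        · exact ⟨h1, h2⟩
    · rw [NearZ_ins] at hx
      exact (hb _ _).2 hx'.2.1 hx.1.1
  have h2 : (pr fun x => On o K x ∧ x j = !(o j) ∧ q x = false) =
      (pr fun x => On o K x ∧ x j = !(o j) ∧ q (flp j x) = false) +
        pr fun x => On o K x ∧ x j = !(o j) ∧ q x = false ∧ q (flp j x) = true := by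
    refine NearZ_add (fun x => ?_) (fun x hx hx' => ?_)
    · constructor
      · rintro ⟨h1, h2, h3⟩
        by_cases h4 : q (flp j x) = true
        · exact Or.inr ⟨h1, h2, h3, h4⟩
        · exact Or.inl ⟨h1, h2, by simpa using h4⟩
      · rintro (⟨h1, h2, h3⟩ | ⟨h1, h2, h3, -⟩)
        · refine ⟨h1, h2, ?_⟩
          by_contra h4
          have h5 := up_flp hq h2 (by simpa using h4)
          rw [h3] at h5
          exact absurd h5 (by simp)
        · exact ⟨h1, h2, h3⟩
    · have h3 := hx.2.2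
      rw [hx'.2.2.2] at h3
      exact absurd h3 (by simp)
  have h3 : (pr fun x => On o K x ∧ x j = !(o j) ∧ q (flp j x) = false) =
      zz o q (insert j K) := by
    unfold zz
    rw [← NearZ_flp j]
    refine pr_congr fun x => ?_
    rw [NearZ_on hj, flp_flp, flp_same, NearZ_ins]
    constructor
    · rintro ⟨a, b, c⟩
      exact ⟨⟨by simpa using b, a⟩, c⟩
    · rintro ⟨⟨b, a⟩, c⟩
      exact ⟨a, by simpa using b, c⟩
  have h4 : (pr fun x => On o K x ∧ x j = !(o j) ∧ q x = false ∧ q (flp j x) = true) =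
      inf o q K j := by
    unfold RK.inf
    rw [← NearZ_flp j]
    refine pr_congr fun x => ?_
    rw [NearZ_on hj, flp_flp, flp_same]
    constructor
    · rintro ⟨a, b, c, e⟩
      exact ⟨a, by simpa using b, e, c⟩
    · rintro ⟨a, b, c, e⟩
      exact ⟨a, by simpa using b, e, c⟩
  rw [h1, h2, h3, h4]
  ring

/- PROOF. `near` with `A := K`: `zz K ≤ 2 ^ |T \ K| * ∑_{j ∈ T \ K} inf o q K j`, and `inf_zz`. If `T \ K = ∅` this
contradicts `hz`; otherwise some `j ∈ T \ K` has `inf o q K j ≥ zz K / (|T \ K| * 2 ^ |T \ K|)`. -/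
theorem near_zz (hq : Up o q) {T K : Finset (Fin n)} (hT : ∀ x, On o T x → q x = true)
    (hK : K ⊆ T) {Λ : ℕ} (hΛ : (T \ K).card ≤ Λ) (hz : 0 < zz o q K) :
    ∃ j ∈ T \ K, zz o q K ≤ ((Λ * 2 ^ Λ : ℕ) : ℝ) * (zz o q K - 2 * zz o q (insert j K)) := by
  by_contra hcon
  push Not at hcon
  have h1 : zz o q K ≤ 2 ^ (T \ K).card * ∑ j ∈ T \ K, inf o q K j := near hT hK Subset.rfl
  have hne : (T \ K).Nonempty := by
    rw [nonempty_iff_ne_empty]
    intro h0
    rw [h0, sum_empty, mul_zero] at h1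
    linarith
  have hcard : 0 < (T \ K).card := card_pos.2 hne
  have h2 : (2 : ℝ) ^ (T \ K).card ≤ 2 ^ Λ := pow_le_pow_right₀ (by norm_num) hΛ
  have h3 : ∑ j ∈ T \ K, (2 : ℝ) ^ Λ * (Λ * inf o q K j) < ∑ j ∈ T \ K, zz o q K := by
    refine sum_lt_sum_of_nonempty hne fun j hj => ?_
    have h4 := hcon j hj
    rw [← inf_zz hq (mem_sdiff.1 hj).2] at h4
    refine lt_of_le_of_lt (le_of_eq ?_) h4
    push_cast
    ring
  have h4 : ∑ j ∈ T \ K, (2 : ℝ) ^ Λ * (Λ * inf o q K j) =
      Λ * (2 ^ Λ * ∑ j ∈ T \ K, inf o q K j) := by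
    rw [mul_sum, mul_sum]
    refine sum_congr rfl fun j _ => ?_
    ring
  have h5 : ∑ j ∈ T \ K, zz o q K = (T \ K).card * zz o q K := by
    rw [sum_const, nsmul_eq_mul]
  have h6 : 0 ≤ ∑ j ∈ T \ K, inf o q K j := sum_nonneg fun j _ => pr_nonneg _
  have h7 : zz o q K ≤ 2 ^ Λ * ∑ j ∈ T \ K, inf o q K j :=
    h1.trans (mul_le_mul_of_nonneg_right h2 h6)
  have h8 : ((T \ K).card : ℝ) ≤ Λ := by exact_mod_cast hΛ
  rw [h4, h5] at h3
  have h9 : ((T \ K).card : ℝ) * zz o q K ≤ Λ * (2 ^ Λ * ∑ j ∈ T \ K, inf o q K j) :=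
    mul_le_mul h8 h7 hz.le (Nat.cast_nonneg _)
  linarith

end Pool.Agent.H.MP_cba12a_lc.RM
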