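import Pool.Agent.H.MP_cba12a_lc.RM.EstI
import Pool.Agent.H.MP_cba12a_lc.RM.NearZ

/-!
The second stage finds a near implicant contained in the term.
-/

namespace Pool.Agent.H.MP_cba12a_lc.RM

open Finset Pool.Agent.H.MP_cba12a_lc Pool.Agent.H.MP_cba12a_lc.RK

variable {n m : ℕ} {o : Fin n → Bool} {f q : (Fin n → Bool) → Bool} {ω : Fin m → Fin n → Bool}
  {R : ℕ} {τ : ℝ} {V : List Lit}

private theorem Chain_ext (M Θ : ℕ) (V : List Lit) (S : Samples) (C : List Lit) :
    (extI M Θ V S C).length ≤ M + 1 := by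
  unfold extI
  rw [List.length_cons]
  split_ifs with h
  · rw [List.length_map]
    omega
  · simp

private theorem Chain_pr {P : (Fin n → Bool) → Prop} (h : ∀ x, ¬ P x) : pr P = 0 := by
  refine le_antisymm ?_ (pr_nonneg P)
  have h1 := pr_le_sum (ι := Unit) ∅ P (fun _ _ => True) (fun x hx => absurd hx (h x))
  rwa [sum_empty] at h1

private theorem Chain_flat (M Θ : ℕ) (V : List Lit) (S : Samples) (cs : List (List Lit)) :
    (cs.flatMap fun C => extI M Θ V S C).length ≤ cs.length * (M + 1) := by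
  induction cs with
  | nil => simp
  | cons C cs ih =>
    rw [List.flatMap_cons, List.length_append, List.length_cons, Nat.add_mul, one_mul]
    have := Chain_ext M Θ V S C
    omega

/- PROOF. Each `extI M Θ V S C` has length at most `M + 1`. Induction on `j`: the `j`-th iterate has
length at most `(M + 1) ^ j ≤ N` for `j ≤ D`, so the test in `chStep` holds for `j < D`. -/
theorem length_chn {N M Θ D : ℕ} {S : Samples} {C : List Lit} (hN : (M + 1) ^ D ≤ N) {j : ℕ}
    (hj : j ≤ D) : ((chStep N M Θ V S)^[j] [C]).length ≤ (M + 1) ^ j := by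
  clear hN hj
  induction j with
  | zero => simp
  | succ j ih =>
    rw [Function.iterate_succ_apply', pow_succ]
    unfold chStep at ih ⊢
    split_ifs with h
    · exact (Chain_flat M Θ V S _).trans (Nat.mul_le_mul_right _ ih)
    · exact ih.trans (Nat.le_mul_of_pos_right _ (Nat.succ_pos M))

/- PROOF. `length_chn`: the flatMap has length `≤ (M + 1) ^ (j + 1) ≤ N`. -/
theorem mem_chStep {N M Θ D : ℕ} {S : Samples} {C C1 C2 : List Lit} (hN : (M + 1) ^ D ≤ N) {j : ℕ}
    (hj : j < D) (h1 : C1 ∈ (chStep N M Θ V S)^[j] [C]) (h2 : C2 ∈ extI M Θ V S C1) :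
    C2 ∈ (chStep N M Θ V S)^[j + 1] [C] := by
  have hl : ((chStep N M Θ V S)^[j] [C]).length ≤ (M + 1) ^ j := length_chn hN hj.le
  rw [Function.iterate_succ_apply']
  have h3 : (((chStep N M Θ V S)^[j] [C]).flatMap fun C => extI M Θ V S C).length ≤ N := by
    refine (Chain_flat M Θ V S _).trans ((Nat.mul_le_mul_right _ hl).trans ?_)
    rw [← pow_succ]
    exact (Nat.pow_le_pow_right (Nat.succ_pos M) hj).trans hN
  have h4 : chStep N M Θ V S ((chStep N M Θ V S)^[j] [C]) =
      ((chStep N M Θ V S)^[j] [C]).flatMap fun C => extI M Θ V S C := by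
    conv_lhs => unfold chStep
    exact if_pos h3
  rw [h4]
  exact List.mem_flatMap.2 ⟨C1, h1, h2⟩

/- PROOF. By induction on `j ≤ Λ` there is `C` in the `j`-th iterate with all its literals in `V`,
`∀ l ∈ C0, l ∈ C`, `vars o C ⊆ T`, and `zz o q (vars o C) ≤ z0` or
`(T \ vars o C).card + j ≤ Λ`. Step: if `zz ≤ z0` keep `C` (`C ∈ extI .. C`). Otherwise
`zz > z0 > 0`; `near_zz` with `P := Λ * 2 ^ Λ` gives `j' ∈ T \ vars o C` with
`zz ≤ P * (zz - 2 zz (insert j' _))`, so `(j', o j') ∈ ils` (`ils_of`, `Θ = 2 P`, `(16 Θ τ ≤ z0)`), and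
`length_ils_le` with `hb`, `hM`: `(j', o j') :: C ∈ extI`; `vars_cons`. At `j = Λ`: `T \ vars o C = ∅`, so
`vars o C = T` and `zz o q T = 0` by `hT` (`zz` of a subcube on which `q` is true). (If `Λ = 0` the claim
is about `C0` itself.) -/
theorem mem_chn (hS : Smp o f q ω R τ V) {T : Finset (Fin n)} (hT : ∀ x, On o T x → q x = true)
    (hTV : ∀ j ∈ T, ((j : ℕ), o j) ∈ V) {C0 : List Lit} (hC0 : ∀ l ∈ C0, l ∈ V)
    (hC0T : vars o C0 ⊆ T) {Λ b M N Θ : ℕ} {z0 : ℝ} (hΛ : (T \ vars o C0).card ≤ Λ)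
    (hΘ : Θ = 2 * (Λ * 2 ^ Λ)) (hup : Up o q) (hz0 : 16 * Θ * τ ≤ z0) (hz1 : 0 < z0)
    (hb : (1 / 2 : ℝ) ^ b ≤ z0) (hM : 8 * Θ ^ 2 * b ≤ M) (hN : (M + 1) ^ Λ ≤ N) :
    ∃ C ∈ chn N M Θ Λ V (smp f ω) C0, (∀ l ∈ C, l ∈ V) ∧ (∀ l ∈ C0, l ∈ C) ∧
      vars o C ⊆ T ∧ zz o q (vars o C) ≤ z0 := by
  have key : ∀ j ≤ Λ, ∃ C ∈ (chStep N M Θ V (smp f ω))^[j] [C0], (∀ l ∈ C, l ∈ V) ∧
      (∀ l ∈ C0, l ∈ C) ∧ vars o C ⊆ T ∧
      (zz o q (vars o C) ≤ z0 ∨ (T \ vars o C).card + j ≤ Λ) := by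
    intro j
    induction j with
    | zero =>
      intro _
      exact ⟨C0, by simp, hC0, fun l hl => hl, hC0T, Or.inr hΛ⟩
    | succ j ih =>
      intro hj
      obtain ⟨C, hC, hCV, hCC, hCT, h⟩ := ih (by omega)
      by_cases hz : zz o q (vars o C) ≤ z0
      · refine ⟨C, mem_chStep hN (by omega) hC ?_, hCV, hCC, hCT, Or.inl hz⟩
        unfold extI
        exact List.mem_cons_self
      have hz' : z0 < zz o q (vars o C) := not_le.1 hz
      have hcard : (T \ vars o C).card + j ≤ Λ := h.resolve_left hz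
      have hΘ0 : 0 < Θ := by
        have h2 : 0 < 2 ^ Λ := by positivity
        have h3 : 0 < Λ * 2 ^ Λ := Nat.mul_pos (by omega) h2
        omega
      obtain ⟨i, hi, hin⟩ := near_zz hup hT hCT (by omega : (T \ vars o C).card ≤ Λ)
        (hz1.trans hz')
      rw [mem_sdiff] at hi
      have h16 : 16 * Θ * τ ≤ zz o q (vars o C) := hz0.trans hz'.le
      have hmem : ((i : ℕ), o i) ∈ ils Θ V (smp f ω) C := by
        refine ils_of hS hΘ0 hCV h16 hi.2 (hTV i hi.1) ?_
        rw [hΘ]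
        push_cast
        push_cast at hin
        linarith
      have hlen := length_ils_le (b := b) hS hΘ0 hCV h16 (hb.trans hz'.le)
      refine ⟨((i : ℕ), o i) :: C, mem_chStep hN (by omega) hC ?_, ?_, ?_, ?_, Or.inr ?_⟩
      · unfold extI
        rw [if_pos (hlen.trans hM)]
        exact List.mem_cons_of_mem _ (List.mem_map.2 ⟨_, hmem, rfl⟩)
      · intro l hl
        rcases List.mem_cons.1 hl with rfl | hl
        · exact hTV i hi.1
        · exact hCV l hl
      · exact fun l hl => List.mem_cons_of_mem _ (hCC l hl)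
      · rw [vars_cons]
        exact insert_subset hi.1 hCT
      · rw [vars_cons]
        have h5 : T \ insert i (vars o C) ⊆ (T \ vars o C).erase i := by
          intro x hx
          rw [mem_sdiff, mem_insert, not_or] at hx
          rw [mem_erase, mem_sdiff]
          exact ⟨hx.2.1, hx.1, hx.2.2⟩
        have h6 := card_le_card h5
        have h7 : i ∈ T \ vars o C := mem_sdiff.2 hi
        have h8 := card_erase_lt_of_mem h7
        omega
  obtain ⟨C, hC, hCV, hCC, hCT, h⟩ := key Λ le_rfl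
  refine ⟨C, hC, hCV, hCC, hCT, ?_⟩
  rcases h with h | h
  · exact h
  · have h1 : T \ vars o C = ∅ := card_eq_zero.1 (by omega)
    have h2 : T ⊆ vars o C := sdiff_eq_empty_iff_subset.1 h1
    have h3 : zz o q (vars o C) = 0 := by
      unfold zz
      refine Chain_pr fun x hx => ?_
      have h4 := hT x fun i hi => hx.1 i (h2 hi)
      rw [hx.2] at h4
      exact absurd h4 (by simp)
    rw [h3]
    exact hz1.le

end Pool.Agent.H.MP_cba12a_lc.RM
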