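import Pool.Agent.H.MP_cba12a_lc.RM.Algo
import Pool.Agent.H.MP_cba12a_lc.RK.Core

/-!
The greedy cover with the candidates of the two stages.
-/

namespace Pool.Agent.H.MP_cba12a_lc.RM

open Finset Pool.Agent.H.MP_cba12a_lc Pool.Agent.H.MP_cba12a_lc.RK

variable {n m : ℕ} {o : Fin n → Bool} {f q : (Fin n → Bool) → Bool} {ω : Fin m → Fin n → Bool}
  {R : ℕ} {τ : ℝ} {V : List Lit}

/-- the greedy cover -/
theorem coreM_spec {A B N a M Θ D κ : ℕ} (hm : 0 < m) (hA : 0 < A) (hB : 0 < B) (hτ : 0 < τ)
    (hrep : Rep f ω R τ) (hR : 1 < R * (1 / B - τ)) (hV : ∀ l ∈ V, l.1 < n) :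
    ∃ H, coreM A B R N a M Θ D κ V (smp f ω) = H ∧ H.length ≤ R ∧ (∀ W ∈ H, ∀ l ∈ W, l ∈ V) ∧
      mu (fpE f H) ≤ 1 / A + R * (2 * τ) ∧ goodM A B N a M Θ D κ V (smp f ω) H = [] := by
  have hA' : (1 : ℝ) ≤ A := by exact_mod_cast hA
  set H : ℕ → List (List Lit) := fun j => (stepM A B N a M Θ D κ V (smp f ω))^[j] [] with hH
  have hsucc : ∀ j, H (j + 1) = stepM A B N a M Θ D κ V (smp f ω) (H j) := by
    intro j
    simp only [hH]
    rw [Function.iterate_succ_apply']
  have hbd : ∀ j, Bd j (V.length + a + 1 + D) V (H j) := fun j =>
    bd_coreM A B N a M Θ D κ V (smp f ω) j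
  have hlits : ∀ j, ∀ W ∈ H j, ∀ l ∈ W, l.1 < n := fun j W hW l hl =>
    hV l (((hbd j).2 W hW).2 l hl)
  have hgain : ∀ j, j ≤ R → mu (fpE f (H j)) ≤
      1 / A * (1 - mu (ev f true [] (H j))) + j * (2 * τ) ∧
      ((∀ i < j, goodM A B N a M Θ D κ V (smp f ω) (H i) ≠ []) →
      mu (ev f true [] (H j)) ≤ 1 - j * (1 / B - τ)) := by
    intro j
    induction j with
    | zero =>
      intro _
      have h1 := mu_le_one (ev f true [] (H 0))
      constructor
      · have h2 : mu (fpE f (H 0)) = 0 := by
          unfold mu ct
          rw [filter_false_of_mem]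
          · simp
          · intro x _ hx
            unfold fpE at hx
            simp [hH, satD] at hx
        rw [h2]
        have h3 : 0 ≤ 1 / (A : ℝ) * (1 - mu (ev f true [] (H 0))) :=
          mul_nonneg (by positivity) (by linarith)
        simpa using h3
      · intro _
        simpa using h1
    | succ j ih =>
      intro hj
      obtain ⟨ih1, ih2⟩ := ih (by omega)
      cases hgl : goodM A B N a M Θ D κ V (smp f ω) (H j) with
      | nil =>
        have h3 : H (j + 1) = H j := by
          rw [hsucc]
          unfold stepM
          rw [hgl]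
          simp
        rw [h3]
        constructor
        · push_cast
          linarith
        · intro hg
          exact absurd hgl (hg j (by omega))
      | cons C rest =>
        have hC := mem_goodM (A := A) (B := B) (N := N) (a := a) (M := M) (Θ := Θ) (D := D) (κ := κ) (V := V)
          (S := smp f ω) (h := H j) (C := C) (by rw [hgl]; simp)
        have h3 : H (j + 1) = C :: H j := by
          rw [hsucc]
          unfold stepM
          rw [hgl]
          simp
        have h4 := acc8_spec hm hA hB hτ hrep ((hbd j).1.trans (by omega)) (hlits j)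
          (fun l hl => hV l (hC.1.2 l hl)) hC.2
        have h5 := ev_nil_cons (f := f) (h := H j) (C := C)
        rw [h3]
        constructor
        · have h6 : mu (fpE f (C :: H j)) ≤ mu (ev f false C (H j)) + mu (fpE f (H j)) := by
            refine mu_le_add ?_
            intro x hx
            unfold fpE at hx ⊢
            rw [Bool.and_eq_true, Bool.not_eq_true'] at hx
            obtain ⟨hx1, hx2⟩ := hx
            by_cases hs : satD (List.ofFn x) (H j) = true
            · right
              rw [hx1, hs]
              rfl
            · left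
              rw [Bool.not_eq_true] at hs
              rw [ev_iff]
              refine ⟨hx1, ?_, hs⟩
              unfold satD at hx2 hs
              rw [List.any_cons, hs, Bool.or_false] at hx2
              exact hx2
          have h7 : 1 / (A : ℝ) * (1 - mu (ev f true [] (C :: H j))) =
              1 / A * (1 - mu (ev f true [] (H j))) + 1 / A * mu (ev f true C (H j)) := by
            rw [h5]; ring
          rw [h7]
          push_cast
          linarith [h4.1]
        · intro hg
          have h8 := ih2 (fun i hi => hg i (by omega))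
          push_cast
          linarith [h4.2]
  have hfix : ∃ i < R, goodM A B N a M Θ D κ V (smp f ω) (H i) = [] := by
    by_contra hcon
    push Not at hcon
    have h1 := (hgain R le_rfl).2 (fun i hi => hcon i hi)
    have h2 := mu_nonneg (ev f true [] (H R))
    linarith
  obtain ⟨i, hi, hgi⟩ := hfix
  have hstay : ∀ d, H (i + d) = H i := by
    intro d
    induction d with
    | zero => rfl
    | succ d ih =>
      rw [← add_assoc, hsucc, ih]
      unfold stepM
      rw [hgi]
      simp
  have hfinal : coreM A B R N a M Θ D κ V (smp f ω) = H i := by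
    have := hstay (R - i)
    rw [show i + (R - i) = R by omega] at this
    exact this
  refine ⟨H i, hfinal, (hbd i).1.trans hi.le, fun W hW l hl => ((hbd i).2 W hW).2 l hl, ?_, hgi⟩
  refine (hgain i hi.le).1.trans ?_
  have h1 := mu_nonneg (ev f true [] (H i))
  have h2 : 1 / (A : ℝ) * (1 - mu (ev f true [] (H i))) ≤ 1 / A * 1 :=
    mul_le_mul_of_nonneg_left (by linarith) (by positivity)
  have h3 : (i : ℝ) * (2 * τ) ≤ R * (2 * τ) := by
    have : (i : ℝ) ≤ R := by exact_mod_cast hi.le
    exact mul_le_mul_of_nonneg_right this (by positivity)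
  linarith

end Pool.Agent.H.MP_cba12a_lc.RM
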