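import Pool.Agent.H.MP_cba12a_lc.RL.Defs

/-!
The pairs of variables of which one can be switched off, but not both, at points with satisfied
terms that are far from each other.
-/

namespace Pool.Agent.H.MP_cba12a_lc.RM

open Finset Pool.Agent.H.MP_cba12a_lc Pool.Agent.H.MP_cba12a_lc.RK Pool.Agent.H.MP_cba12a_lc.RL

variable {n : ℕ}

open Classical in
/-- the points of `orP i j` with a satisfied term that has more than `r` variables outside the first
term after switching off `j` -/
noncomputable def f1P (o : Fin n → Bool) (q : (Fin n → Bool) → Bool) (F : Finset (Finset (Fin n)))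
    (rk : Finset (Fin n) → ℕ) (h : List (List Lit)) (r : ℕ) (i j : Fin n) :
    Finset (Fin n → Bool) :=
  (orP o q h i j).filter fun x => ∃ T1 ∈ F, On o T1 x ∧ r < (T1 \ ft o F rk (flp j x)).card

open Classical in
/-- the points of `orP i j` which are in none of the sets `f1P i j`, `f1P j i`, whose first term
contains `i` and `j`, and for which the first term after switching off `j` has more than `4 r`
variables outside it -/
noncomputable def f2P (o : Fin n → Bool) (q : (Fin n → Bool) → Bool) (F : Finset (Finset (Fin n)))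
    (rk : Finset (Fin n) → ℕ) (h : List (List Lit)) (r : ℕ) (i j : Fin n) :
    Finset (Fin n → Bool) :=
  (orP o q h i j).filter fun x => x ∉ f1P o q F rk h r i j ∧ x ∉ f1P o q F rk h r j i ∧
    i ∈ ft o F rk x ∧ j ∈ ft o F rk x ∧ 4 * r < (ft o F rk (flp j x) \ ft o F rk x).card

/-- the measure of the points of the subcube `K` at which `q` is false -/
noncomputable def zz (o : Fin n → Bool) (q : (Fin n → Bool) → Bool) (K : Finset (Fin n)) : ℝ :=
  pr fun x => On o K x ∧ q x = false

section lemmas

variable {o : Fin n → Bool} {q : (Fin n → Bool) → Bool} {F : Finset (Finset (Fin n))} {k L : ℕ}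
  {rk : Finset (Fin n) → ℕ} {h : List (List Lit)} {i j l : Fin n} {T : Finset (Fin n)}
  {x : Fin n → Bool} {r : ℕ}

theorem mem_f1P : x ∈ f1P o q F rk h r i j ↔ x ∈ orP o q h i j ∧
    ∃ T1 ∈ F, On o T1 x ∧ r < (T1 \ ft o F rk (flp j x)).card := by
  classical
  unfold f1P
  rw [mem_filter]

theorem mem_f2P : x ∈ f2P o q F rk h r i j ↔ x ∈ orP o q h i j ∧ x ∉ f1P o q F rk h r i j ∧
    x ∉ f1P o q F rk h r j i ∧ i ∈ ft o F rk x ∧ j ∈ ft o F rk x ∧
    4 * r < (ft o F rk (flp j x) \ ft o F rk x).card := by
  classical
  unfold f2P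
  rw [mem_filter]

end lemmas

end Pool.Agent.H.MP_cba12a_lc.RM
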