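import Pool.Agent.H.MP_cba12a_lc.RM.Algo
import Pool.Agent.H.MP_cba12a_lc.RM.Defs
import Pool.Agent.H.MP_cba12a_lc.RK.Est
import Pool.Agent.H.MP_cba12a_lc.RK.Vars
import Pool.Agent.H.MP_cba12a_lc.X10.Lvl

/-!
The list of the literals which decrease the measure of the false points of a subcube.
-/

namespace Pool.Agent.H.MP_cba12a_lc.RM

open Finset Pool.Agent.H.MP_cba12a_lc Pool.Agent.H.MP_cba12a_lc.RK

variable {n m : ℕ} {o : Fin n → Bool} {f q : (Fin n → Bool) → Bool} {ω : Fin m → Fin n → Bool}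
  {R : ℕ} {τ : ℝ} {V : List Lit}

private theorem EstI_lt {l : Lit} (hl : ∃ i : Fin n, l = ((i : ℕ), o i)) : l.1 < n := by
  obtain ⟨i, rfl⟩ := hl
  exact i.2

/-- the test of `ils` in terms of frequencies -/
private theorem EstI_test (hS : Smp o f q ω R τ V) {C : List Lit} {Θ : ℕ} {l : Lit} :
    2 * Θ * cnt (smp f ω) false (l :: C) [] + cnt (smp f ω) false C [] ≤
        Θ * cnt (smp f ω) false C [] ↔
      2 * Θ * ((cnt (smp f ω) false (l :: C) [] : ℝ) / m) + (cnt (smp f ω) false C [] : ℝ) / m ≤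
        Θ * ((cnt (smp f ω) false C [] : ℝ) / m) := by
  have hm : (0 : ℝ) < m := by exact_mod_cast hS.hm
  rw [← mul_div_assoc, ← mul_div_assoc, ← add_div, div_le_div_iff_of_pos_right hm]
  exact_mod_cast Iff.rfl

private theorem EstI_zz (q : (Fin n → Bool) → Bool) (K : Finset (Fin n)) :
    zz o q K = (1 / 2) ^ K.card * ZZ o q K := by
  unfold zz ZZ
  exact pr_on o K (fun x => q x = false)

/- PROOF. `cnt_est` with `h := []`, and `mu (ev q false C []) = zz o q (vars o C)` (`mu_eq_pr`, `ev_iff`,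
`sat_iff_on`; `satD _ [] = false`). -/
theorem cnt_zz (hS : Smp o f q ω R τ V) {C : List Lit} (hC : ∀ l ∈ C, l ∈ V) :
    |(cnt (smp f ω) false C [] : ℝ) / m - zz o q (vars o C)| < 2 * τ := by
  have hC' : ∀ l ∈ C, ∃ i : Fin n, l = ((i : ℕ), o i) := fun l hl => hS.lits l (hC l hl)
  have h1 := cnt_est (h := []) hS (Nat.zero_le _) (fun D hD => absurd hD List.not_mem_nil) false
    (fun l hl => EstI_lt (hC' l hl))
  have h2 : mu (ev q false C []) = zz o q (vars o C) := by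
    rw [mu_eq_pr]
    unfold zz
    refine pr_congr fun x => ?_
    rw [ev_iff, RK.sat_iff_on hC']
    constructor
    · rintro ⟨h1, h2, _⟩
      exact ⟨h2, h1⟩
    · rintro ⟨h1, h2⟩
      exact ⟨h2, h1, rfl⟩
  rwa [h2] at h1

theorem vars_cons {C : List Lit} {j : Fin n} :
    vars o (((j : ℕ), o j) :: C) = insert j (vars o C) := by
  ext l
  rw [mem_vars, List.mem_cons, mem_insert, mem_vars]
  refine or_congr_left ?_
  constructor
  · intro h1
    exact Fin.ext (congrArg Prod.fst h1)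
  · rintro rfl
    rfl

/- PROOF. `j ∉ vars o C` gives the first part of the test. With `c0 := cnt C / m`,
`c1 := cnt ((j, o j) :: C) / m` and `cnt_zz`, `vars_cons`: `c0 ≤ zz K + 2 τ` and
`Θ * (c0 - 2 * c1) ≥ Θ * (zz K - 2 zz (insert j K)) - 6 Θ τ ≥ 2 zz K - 6 Θ τ ≥ zz K + 2 τ`
by `16 Θ τ ≤ zz K`. Divide the test by `m`. -/
theorem ils_of (hS : Smp o f q ω R τ V) {C : List Lit} {Θ : ℕ} (hΘ : 0 < Θ)
    (hC : ∀ l ∈ C, l ∈ V) (hz : 16 * Θ * τ ≤ zz o q (vars o C)) {j : Fin n} (hj : j ∉ vars o C)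
    (hjV : ((j : ℕ), o j) ∈ V)
    (hi : 2 * zz o q (vars o C) ≤
      Θ * (zz o q (vars o C) - 2 * zz o q (insert j (vars o C)))) :
    ((j : ℕ), o j) ∈ ils Θ V (smp f ω) C := by
  have hC' : ∀ l ∈ C, ∃ i : Fin n, l = ((i : ℕ), o i) := fun l hl => hS.lits l (hC l hl)
  have hne : ∀ l ∈ C, l.1 ≠ (j : ℕ) := by
    intro l hl hc
    obtain ⟨i, rfl⟩ := hC' l hl
    have hij : i = j := Fin.ext hc
    subst hij
    exact hj (mem_vars.2 hl)
  unfold ils
  rw [List.mem_filter]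
  refine ⟨hjV, ?_⟩
  rw [Bool.and_eq_true, List.all_eq_true, decide_eq_true_iff]
  refine ⟨?_, ?_⟩
  · intro l hl
    simpa using hne l hl
  · rw [EstI_test hS]
    have h1 := abs_lt.1 (cnt_zz hS hC)
    have h2 := abs_lt.1 (cnt_zz (C := ((j : ℕ), o j) :: C) hS (fun l hl => by
      rcases List.mem_cons.1 hl with rfl | hl
      · exact hjV
      · exact hC l hl))
    rw [vars_cons] at h2
    have hΘ' : (1 : ℝ) ≤ Θ := by exact_mod_cast hΘ
    have hτ := hS.hτ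
    have h3 := mul_le_mul_of_nonneg_left h1.1.le (by linarith : (0 : ℝ) ≤ Θ)
    have h4 := mul_le_mul_of_nonneg_left h2.2.le (by linarith : (0 : ℝ) ≤ Θ)
    have h5 : τ ≤ Θ * τ := le_mul_of_one_le_left hτ.le hΘ'
    nlinarith [h1.2]

/- PROOF. `l = (j, o j)` by `hS.lits`; `j ∉ vars o C` by the first part of the test; the second part and
`cnt_zz`: `zz K - 2 τ ≤ c0 ≤ Θ (c0 - 2 c1) ≤ Θ (zz K - 2 zz (insert j K)) + 6 Θ τ`, and
`(6 Θ + 2) τ ≤ zz K / 2`. -/
theorem of_ils (hS : Smp o f q ω R τ V) {C : List Lit} {Θ : ℕ} (hΘ : 0 < Θ)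
    (hC : ∀ l ∈ C, l ∈ V) (hz : 16 * Θ * τ ≤ zz o q (vars o C)) {l : Lit}
    (hl : l ∈ ils Θ V (smp f ω) C) :
    ∃ j : Fin n, l = ((j : ℕ), o j) ∧ j ∉ vars o C ∧
      2 * zz o q (insert j (vars o C)) ≤ (1 - 1 / (2 * (Θ : ℝ))) * zz o q (vars o C) := by
  have hC' : ∀ l ∈ C, ∃ i : Fin n, l = ((i : ℕ), o i) := fun l hl => hS.lits l (hC l hl)
  unfold ils at hl
  rw [List.mem_filter, Bool.and_eq_true, List.all_eq_true, decide_eq_true_iff, EstI_test hS] at hl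
  obtain ⟨hlV, hall, htest⟩ := hl
  obtain ⟨j, rfl⟩ := hS.lits l hlV
  have hne : ∀ l ∈ C, l.1 ≠ (j : ℕ) := by
    intro l hl
    simpa using hall l hl
  refine ⟨j, rfl, ?_, ?_⟩
  · intro hj
    exact hne _ (mem_vars.1 hj) rfl
  · have h1 := abs_lt.1 (cnt_zz hS hC)
    have h2 := abs_lt.1 (cnt_zz (C := ((j : ℕ), o j) :: C) hS (fun l hl => by
      rcases List.mem_cons.1 hl with rfl | hl
      · exact hlV
      · exact hC l hl))
    rw [vars_cons] at h2
    have hΘ' : (1 : ℝ) ≤ Θ := by exact_mod_cast hΘ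
    have hΘ0 : (0 : ℝ) < Θ := by linarith
    have hτ := hS.hτ
    have h3 := mul_le_mul_of_nonneg_left h1.2.le hΘ0.le
    have h4 := mul_le_mul_of_nonneg_left h2.1.le hΘ0.le
    have h5 : τ ≤ Θ * τ := le_mul_of_one_le_left hτ.le hΘ'
    have h6 : Θ * (2 * zz o q (insert j (vars o C))) ≤
        Θ * zz o q (vars o C) - zz o q (vars o C) / 2 := by
      nlinarith [h1.1]
    have h7 : Θ * ((1 - 1 / (2 * (Θ : ℝ))) * zz o q (vars o C)) =
        Θ * zz o q (vars o C) - zz o q (vars o C) / 2 := by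
      field_simp
    rw [← h7] at h6
    exact le_of_mul_le_mul_left h6 hΘ0

/- PROOF. `zz o q K = (1 / 2) ^ K.card * ZZ o q K` (`pr_on`), so `zz o q K ≤ ZZ o q K`, and for `j ∉ K`
`2 * zz o q (insert j K) = (1 / 2) ^ K.card * ZZ o q (insert j K)`. `infl_card10` with
`θ := 1 / (2 Θ)`, `U := vars o C`, `S` the set of the `j` with `(j, o j) ∈ ils`:
`|S| * (1 / (2 Θ)) ^ 2 ≤ 2 * log (1 / ZZ) ≤ 2 * log (2 ^ b) ≤ 2 * b`. The length of the list is `|S|` as
in `length_qls_le` of RK/EstQ.lean (`hS.nodup`). -/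
theorem length_ils_le (hS : Smp o f q ω R τ V) {C : List Lit} {Θ b : ℕ} (hΘ : 0 < Θ)
    (hC : ∀ l ∈ C, l ∈ V) (hz : 16 * Θ * τ ≤ zz o q (vars o C))
    (hb : (1 / 2 : ℝ) ^ b ≤ zz o q (vars o C)) :
    (ils Θ V (smp f ω) C).length ≤ 8 * Θ ^ 2 * b := by
  classical
  have hΘ' : (0 : ℝ) < Θ := by exact_mod_cast hΘ
  set W : Finset (Fin n) := univ.filter fun j => ((j : ℕ), o j) ∈ ils Θ V (smp f ω) C with hW
  have hp : (0 : ℝ) < (1 / 2) ^ (vars o C).card := by positivity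
  have hZp : 0 < zz o q (vars o C) := lt_of_lt_of_le (by positivity) hb
  have hZ : 0 < ZZ o q (vars o C) := by
    rw [EstI_zz] at hZp
    exact (pos_iff_pos_of_mul_pos hZp).1 hp
  have hW1 : ∀ j ∈ W, j ∉ vars o C ∧
      ZZ o q (insert j (vars o C)) ≤ (1 - 1 / (2 * (Θ : ℝ))) * ZZ o q (vars o C) := by
    intro j hj
    rw [hW, mem_filter] at hj
    obtain ⟨j', hjj, hj1, hj2⟩ := of_ils hS hΘ hC hz hj.2
    have hjj' : j = j' := Fin.ext (congrArg Prod.fst hjj)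
    subst hjj'
    refine ⟨hj1, ?_⟩
    rw [EstI_zz, EstI_zz, card_insert_of_notMem hj1, pow_succ] at hj2
    have h1 : (1 / 2 : ℝ) ^ (vars o C).card * ZZ o q (insert j (vars o C)) ≤
        (1 / 2 : ℝ) ^ (vars o C).card * ((1 - 1 / (2 * (Θ : ℝ))) * ZZ o q (vars o C)) := by
      linarith
    exact le_of_mul_le_mul_left h1 hp
  have h1 := infl_card10 (o := o) (g := q) (U := vars o C) (S := W) (θ := 1 / (2 * (Θ : ℝ)))
    (by positivity) hZ (fun j hj => (hW1 j hj).1) (fun j hj => (hW1 j hj).2)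
  have h2 : Real.log (1 / ZZ o q (vars o C)) ≤ b := by
    have h3 : (1 / 2 : ℝ) ^ b ≤ ZZ o q (vars o C) := by
      refine hb.trans ?_
      rw [EstI_zz]
      have h4 : (1 / 2 : ℝ) ^ (vars o C).card ≤ 1 := pow_le_one₀ (by norm_num) (by norm_num)
      exact mul_le_of_le_one_left hZ.le h4
    have h5 : 1 / ZZ o q (vars o C) ≤ 2 ^ b := by
      rw [div_le_iff₀ hZ]
      have h6 := mul_le_mul_of_nonneg_left h3 (by positivity : (0 : ℝ) ≤ 2 ^ b)
      rwa [← mul_pow, mul_one_div_cancel (by norm_num : (2 : ℝ) ≠ 0), one_pow] at h6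
    have h7 := Real.log_le_log (by positivity) h5
    rw [Real.log_pow] at h7
    have h8 : Real.log 2 ≤ 1 := by
      have := Real.log_two_lt_d9
      linarith
    have h9 : (0 : ℝ) ≤ b := Nat.cast_nonneg b
    nlinarith
  have h3 : (W.card : ℝ) ≤ 8 * Θ ^ 2 * b := by
    have h4 : (W.card : ℝ) * (1 / (2 * (Θ : ℝ))) ^ 2 ≤ 2 * b := by linarith
    rw [div_pow, one_pow, mul_one_div, div_le_iff₀ (by positivity)] at h4
    nlinarith
  have h4 : W.card ≤ 8 * Θ ^ 2 * b := by exact_mod_cast h3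
  have hnd : (ils Θ V (smp f ω) C).Nodup := by
    unfold ils
    exact hS.nodup.filter _
  have h5 : (ils Θ V (smp f ω) C).toFinset ⊆ W.image fun j : Fin n => ((j : ℕ), o j) := by
    intro l hl
    rw [List.mem_toFinset] at hl
    obtain ⟨j, rfl, _, _⟩ := of_ils hS hΘ hC hz hl
    rw [mem_image]
    exact ⟨j, by rw [hW, mem_filter]; exact ⟨mem_univ _, hl⟩, rfl⟩
  calc (ils Θ V (smp f ω) C).length = (ils Θ V (smp f ω) C).toFinset.card :=
        (List.toFinset_card_of_nodup hnd).symm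
    _ ≤ (W.image fun j : Fin n => ((j : ℕ), o j)).card := card_le_card h5
    _ ≤ W.card := card_image_le
    _ ≤ 8 * Θ ^ 2 * b := h4

end Pool.Agent.H.MP_cba12a_lc.RM
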