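import Pool.Agent.H.MP_cba12a_lc.RM.Har

/-!
The first kind of far pairs.
-/

namespace Pool.Agent.H.MP_cba12a_lc.RM

open Finset Pool.Agent.H.MP_cba12a_lc Pool.Agent.H.MP_cba12a_lc.RK Pool.Agent.H.MP_cba12a_lc.RL

variable {n : ℕ} {o : Fin n → Bool} {q : (Fin n → Bool) → Bool} {F : Finset (Finset (Fin n))}
  {k L : ℕ} {rk : Finset (Fin n) → ℕ} {h : List (List Lit)} {i : Fin n}

open Classical in
/-- the points of `fstT i T'` at which the part of `T1` outside `T'` and `j` holds -/
private noncomputable def farAset (o : Fin n → Bool) (q : (Fin n → Bool) → Bool)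
    (F : Finset (Finset (Fin n))) (rk : Finset (Fin n) → ℕ) (h : List (List Lit)) (r : ℕ)
    (i j : Fin n) (T1 T' : Finset (Fin n)) : Finset (Fin n → Bool) :=
  if r < (T1 \ T').card then
    (fstT o q F rk h i T').filter fun x => On o ((T1 \ T').erase j) x
  else ∅

private theorem farA_set_card (hR : RefF o q F k L) (hh : OrL o h) (r : ℕ) (j : Fin n)
    {T1 T' : Finset (Fin n)} (hT' : T' ∈ F) :
    2 ^ r * (farAset o q F rk h r i j T1 T').card ≤ (fstT o q F rk h i T').card := by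
  classical
  unfold farAset
  split_ifs with hr
  · have hd : Disjoint ((T1 \ T').erase j) T' :=
      Disjoint.mono_left (erase_subset _ _) sdiff_disjoint
    have h1 := har (rk := rk) (i := i) hR hh hT' ((T1 \ T').erase j) hd
    have h2 : r ≤ ((T1 \ T').erase j).card := by
      have := pred_card_le_card_erase (s := T1 \ T') (a := j)
      omega
    refine le_trans (Nat.mul_le_mul_right _ (Nat.pow_le_pow_right (by norm_num) h2)) ?_
    convert h1
  · simp

open Classical in
private theorem farA_cover (hR : RefF o q F k L) (hrk : Function.Injective rk) (hh : OrL o h)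
    (r : ℕ) (j : Fin n) :
    f1P o q F rk h r i j ⊆
      (F.filter fun T => i ∈ T ∨ j ∈ T).biUnion fun T1 =>
        (F.filter fun T => i ∈ T).biUnion fun T' =>
          (farAset o q F rk h r i j T1 T').image (flp j) := by
  intro w hw
  obtain ⟨hw1, T1, hT1, hO1, hr⟩ := mem_f1P.1 hw
  have hne := ne_orP hR hw1
  have hmem := mem_or_mem hR hw1 hT1 hO1
  obtain ⟨hi, hj, hs, hqi, hqj, hqij⟩ := mem_orP.1 hw1
  have hpv : flp j w ∈ pvS o q h i := by
    rw [mem_pvS', mem_unc, mem_piv]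
    refine ⟨⟨hqj, satD_flp_off hh hj hs⟩, ?_, hqij⟩
    rw [flp_ne hne]
    exact hi
  obtain ⟨hT'F, hT'O, -⟩ := ft_spec (rk := rk) hR hqj
  have hfst : flp j w ∈ fstT o q F rk h i (ft o F rk (flp j w)) :=
    (fstT_iff hR hrk hT'F).2 ⟨hpv, rfl⟩
  have hiT' : i ∈ ft o F rk (flp j w) :=
    piv_sub hR hT'F hT'O (mem_pvS'.1 hpv).2
  rw [mem_biUnion]
  refine ⟨T1, mem_filter.2 ⟨hT1, hmem⟩, ?_⟩
  rw [mem_biUnion]
  refine ⟨ft o F rk (flp j w), mem_filter.2 ⟨hT'F, hiT'⟩, ?_⟩
  rw [mem_image]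
  refine ⟨flp j w, ?_, flp_flp j w⟩
  unfold farAset
  rw [if_pos hr, mem_filter]
  refine ⟨hfst, fun l hl => ?_⟩
  obtain ⟨hl1, hl2⟩ := mem_erase.1 hl
  rw [flp_ne hl1]
  exact hO1 l (mem_sdiff.1 hl2).1

private theorem farA_one (hR : RefF o q F k L) (hrk : Function.Injective rk) (hh : OrL o h)
    (r : ℕ) (j : Fin n) :
    2 ^ r * (f1P o q F rk h r i j).card ≤ 2 * k * (pvS o q h i).card := by
  classical
  have h1 := card_le_card (farA_cover (i := i) hR hrk hh r j)
  have h2 : 2 ^ r * (f1P o q F rk h r i j).card ≤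
      ∑ T1 ∈ F.filter (fun T => i ∈ T ∨ j ∈ T), ∑ T' ∈ F.filter (fun T => i ∈ T),
        2 ^ r * (farAset o q F rk h r i j T1 T').card := by
    refine le_trans (Nat.mul_le_mul_left _ h1) ?_
    refine le_trans (Nat.mul_le_mul_left _ card_biUnion_le) ?_
    rw [mul_sum]
    refine sum_le_sum fun T1 _ => ?_
    refine le_trans (Nat.mul_le_mul_left _ card_biUnion_le) ?_
    rw [mul_sum]
    exact sum_le_sum fun T' _ => Nat.mul_le_mul_left _ card_image_le
  have h3 : ∑ T1 ∈ F.filter (fun T => i ∈ T ∨ j ∈ T), ∑ T' ∈ F.filter (fun T => i ∈ T),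
        2 ^ r * (farAset o q F rk h r i j T1 T').card ≤
      ∑ _T1 ∈ F.filter (fun T => i ∈ T ∨ j ∈ T), (pvS o q h i).card := by
    refine sum_le_sum fun T1 _ => ?_
    rw [← sum_fstT (h := h) (i := i) hR hrk]
    exact sum_le_sum fun T' hT' => farA_set_card hR hh r j (mem_filter.1 hT').1
  have h4 : (F.filter fun T => i ∈ T ∨ j ∈ T).card ≤ 2 * k := by
    rw [filter_or]
    refine le_trans (card_union_le _ _) ?_
    have := hR.read i
    have := hR.read j
    omega
  calc 2 ^ r * (f1P o q F rk h r i j).card ≤ _ := h2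
    _ ≤ _ := h3
    _ = (F.filter fun T => i ∈ T ∨ j ∈ T).card * (pvS o q h i).card := by
        rw [sum_const, smul_eq_mul]
    _ ≤ 2 * k * (pvS o q h i).card := Nat.mul_le_mul_right _ h4

/- PROOF. Let `w ∈ f1P i j`, `x := flp j w`, `T' := ft x`, `T1` as in the definition. `x ∈ pvS i`
(`mem_pvS'`: `q x = true`, `satD_flp_off`, `x i = o i` by `ne_orP`, `q (flp i x) = false`), so
`x ∈ fstT i T'` (`fstT_iff`), `T' ∈ F`, `i ∈ T'` (`piv_sub`). `T1` contains `i` or `j` (`mem_or_mem`) and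
`W := (T1 \ T').erase j` has at least `r` elements, is disjoint from `T'`, and holds at `x`. So
`w` is determined by `x` in the set `{x ∈ fstT i T' | On o W x}`, which has at most
`|fstT i T'| / 2 ^ r` elements (`har`, monotone in the exponent). For given `i`: at most `k * L` values of
`j ∈ nbr F i` (`nbr_card`), at most `2 * k` values of `T1` for given `j` (`hR.read`), and
`∑_{T' ∋ i} |fstT i T'| = |pvS i|` (`sum_fstT`). -/
theorem f1_sum (hR : RefF o q F k L) (hrk : Function.Injective rk) (hh : OrL o h) (r : ℕ) :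
    2 ^ r * ∑ j ∈ nbr F i, (f1P o q F rk h r i j).card ≤
      2 * k ^ 2 * L * (pvS o q h i).card := by
  rw [mul_sum]
  calc ∑ j ∈ nbr F i, 2 ^ r * (f1P o q F rk h r i j).card
      ≤ ∑ _j ∈ nbr F i, 2 * k * (pvS o q h i).card :=
        sum_le_sum fun j _ => farA_one hR hrk hh r j
    _ = (nbr F i).card * (2 * k * (pvS o q h i).card) := by rw [sum_const, smul_eq_mul]
    _ ≤ k * L * (2 * k * (pvS o q h i).card) := Nat.mul_le_mul_right _ (nbr_card hR)
    _ = 2 * k ^ 2 * L * (pvS o q h i).card := by ring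

end Pool.Agent.H.MP_cba12a_lc.RM
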