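import Pool.Agent.H.MP_cba12a_lc.RM.Defs

/-!
The second kind of far pairs.
-/

namespace Pool.Agent.H.MP_cba12a_lc.RM

open Finset Pool.Agent.H.MP_cba12a_lc Pool.Agent.H.MP_cba12a_lc.RK Pool.Agent.H.MP_cba12a_lc.RL

variable {n : ℕ} {o : Fin n → Bool} {q : (Fin n → Bool) → Bool} {F : Finset (Finset (Fin n))}
  {k L : ℕ} {rk : Finset (Fin n) → ℕ} {h : List (List Lit)} {i : Fin n}

/-- switch off the variables of `U` -/
def offU (o : Fin n → Bool) (U : Finset (Fin n)) (x : Fin n → Bool) : Fin n → Bool :=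
  fun l => if l ∈ U then !(o l) else x l

/- PROOF. `S` holds at `offU o U x` iff it holds at `x` and is disjoint from `U`. -/
theorem on_offU {U S : Finset (Fin n)} {x : Fin n → Bool} :
    On o S (offU o U x) ↔ On o (S \ U) x ∧ Disjoint S U := by
  constructor
  · intro hO
    have hd : ∀ l ∈ S, l ∉ U := by
      intro l hl hlU
      have h1 := hO l hl
      unfold offU at h1
      rw [if_pos hlU] at h1
      exact absurd h1 (by cases o l <;> simp)
    refine ⟨fun l hl => ?_, disjoint_left.2 hd⟩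
    have hlS := (mem_sdiff.1 hl).1
    have h1 := hO l hlS
    unfold offU at h1
    rw [if_neg (hd l hlS)] at h1
    exact h1
  · rintro ⟨hO, hd⟩ l hl
    have hlU : l ∉ U := disjoint_left.1 hd hl
    unfold offU
    rw [if_neg hlU]
    exact hO l (mem_sdiff.2 ⟨hl, hlU⟩)

/- PROOF. Induction on `U` with `satD_flp_off` and `up_flp` (or `up_le` for `q`). -/
theorem satD_offU (hh : OrL o h) {U : Finset (Fin n)} {x : Fin n → Bool}
    (hU : ∀ l ∈ U, x l = o l) (hs : satD (List.ofFn x) h = false) :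
    satD (List.ofFn (offU o U x)) h = false := by
  induction U using Finset.induction_on with
  | empty =>
    have h1 : offU o ∅ x = x := by
      funext l
      unfold offU
      rw [if_neg (notMem_empty l)]
    rw [h1]
    exact hs
  | insert a U ha ih =>
    have ih' := ih fun l hl => hU l (mem_insert_of_mem hl)
    have h1 : offU o (insert a U) x = flp a (offU o U x) := by
      funext l
      by_cases hla : l = a
      · subst hla
        rw [flp_same]
        unfold offU
        rw [if_pos (mem_insert_self _ _), if_neg ha, hU l (mem_insert_self _ _)]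
      · rw [flp_ne hla]
        unfold offU
        by_cases hlU : l ∈ U
        · rw [if_pos hlU, if_pos (mem_insert_of_mem hlU)]
        · rw [if_neg hlU, if_neg (by rw [mem_insert, not_or]; exact ⟨hla, hlU⟩)]
    rw [h1]
    refine satD_flp_off hh ?_ ih'
    unfold offU
    rw [if_neg ha]
    exact hU a (mem_insert_self _ _)

/-- the sets `U` which meet all terms that hold at `w` and do not contain both `i` and `j` -/
private noncomputable def farBG (o : Fin n → Bool) (F : Finset (Finset (Fin n)))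
    (rk : Finset (Fin n) → ℕ) (i j : Fin n) (w : Fin n → Bool) : Finset (Finset (Fin n)) := by
  classical
  exact (ft o F rk (flp j w) \ ft o F rk w).powerset.filter fun U =>
    ∀ T1 ∈ F, On o T1 w → ¬ (i ∈ T1 ∧ j ∈ T1) → ¬ Disjoint T1 U

private theorem farB_mem {j : Fin n} {w : Fin n → Bool} {U : Finset (Fin n)} :
    U ∈ farBG o F rk i j w ↔ U ⊆ ft o F rk (flp j w) \ ft o F rk w ∧
      ∀ T1 ∈ F, On o T1 w → ¬ (i ∈ T1 ∧ j ∈ T1) → ¬ Disjoint T1 U := by
  classical
  unfold farBG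
  rw [mem_filter, mem_powerset]

private theorem farB_sdiff {A B : Finset (Fin n)} {r : ℕ} (h1 : A.card ≤ B.card)
    (h2 : (B \ A).card ≤ r) : (A \ B).card ≤ r := by
  have h3 := card_sdiff_add_card_inter A B
  have h4 := card_sdiff_add_card_inter B A
  rw [inter_comm B A] at h4
  omega

/-- a term which holds after switching off `j` is not larger than the first one -/
private theorem farB_card (hR : RefF o q F k L)
    (hrk2 : ∀ S T : Finset (Fin n), S.card < T.card → rk S < rk T) {x : Fin n → Bool}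
    (hq : q x = true) {T : Finset (Fin n)} (hT : T ∈ F) (hO : On o T x) :
    (ft o F rk x).card ≤ T.card := by
  by_contra hc
  exact (ft_spec (rk := rk) hR hq).2.2 T hT (hrk2 _ _ (not_le.1 hc)) hO

private theorem farB_T (hR : RefF o q F k L)
    (hrk2 : ∀ S T : Finset (Fin n), S.card < T.card → rk S < rk T) {r : ℕ} {j : Fin n}
    {w : Fin n → Bool} (hw : w ∈ f2P o q F rk h r i j) {T1 : Finset (Fin n)} (hT1 : T1 ∈ F)
    (hO1 : On o T1 w) (hb : ¬ (i ∈ T1 ∧ j ∈ T1)) : (ft o F rk (flp j w) \ T1).card ≤ 2 * r := by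
  obtain ⟨hor, hf1, hf2, -, -, -⟩ := mem_f2P.1 hw
  obtain ⟨hi, hj, -, hqi, hqj, -⟩ := mem_orP.1 hor
  have ha : ∀ T ∈ F, On o T w → (T \ ft o F rk (flp j w)).card ≤ r := by
    intro T hT hO
    by_contra hc
    exact hf1 (mem_f1P.2 ⟨hor, T, hT, hO, not_le.1 hc⟩)
  have hb2 : ∀ T ∈ F, On o T w → (T \ ft o F rk (flp i w)).card ≤ r := by
    intro T hT hO
    by_contra hc
    exact hf2 (mem_f1P.2 ⟨orP_symm hor, T, hT, hO, not_le.1 hc⟩)
  by_cases hj1 : j ∈ T1
  · have hi1 : i ∉ T1 := fun hc => hb ⟨hc, hj1⟩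
    have h1 : (ft o F rk (flp i w) \ T1).card ≤ r :=
      farB_sdiff (farB_card hR hrk2 hqi hT1 ((on_off hi).2 ⟨hO1, hi1⟩)) (hb2 T1 hT1 hO1)
    obtain ⟨hT', hO', -⟩ := ft_spec (rk := rk) hR hqj
    have h2 := hb2 _ hT' ((on_off hj).1 hO').1
    have h3 : ft o F rk (flp j w) \ T1 ⊆
        (ft o F rk (flp j w) \ ft o F rk (flp i w)) ∪ (ft o F rk (flp i w) \ T1) := by
      intro l hl
      rw [mem_sdiff] at hl
      rw [mem_union, mem_sdiff, mem_sdiff]
      by_cases hl2 : l ∈ ft o F rk (flp i w)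
      · exact Or.inr ⟨hl2, hl.2⟩
      · exact Or.inl ⟨hl.1, hl2⟩
    have h4 := (card_le_card h3).trans (card_union_le _ _)
    omega
  · have h1 : (ft o F rk (flp j w) \ T1).card ≤ r :=
      farB_sdiff (farB_card hR hrk2 hqj hT1 ((on_off hj).2 ⟨hO1, hj1⟩)) (ha T1 hT1 hO1)
    omega

private theorem farB_G (hR : RefF o q F k L)
    (hrk2 : ∀ S T : Finset (Fin n), S.card < T.card → rk S < rk T) {r : ℕ}
    (hr : 2 * k ≤ 2 ^ (2 * r)) {j : Fin n} {w : Fin n → Bool} (hw : w ∈ f2P o q F rk h r i j) :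
    2 ^ (4 * r) ≤ (farBG o F rk i j w).card := by
  classical
  obtain ⟨hor, -, -, -, -, hW⟩ := mem_f2P.1 hw
  obtain ⟨W, hWd⟩ : ∃ W, W = ft o F rk (flp j w) \ ft o F rk w := ⟨_, rfl⟩
  rw [← hWd] at hW
  have h1 : W.powerset ⊆ farBG o F rk i j w ∪
      (F.filter fun T => On o T w ∧ ¬ (i ∈ T ∧ j ∈ T)).biUnion fun T => (W \ T).powerset := by
    intro U hU
    rw [mem_powerset] at hU
    rw [mem_union]
    by_cases hG : U ∈ farBG o F rk i j w
    · exact Or.inl hG
    · right
      rw [farB_mem, ← hWd] at hG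
      push Not at hG
      obtain ⟨T1, hT1, hO1, hb, hd⟩ := hG hU
      rw [mem_biUnion]
      refine ⟨T1, mem_filter.2 ⟨hT1, hO1, fun hc => hb hc.1 hc.2⟩, ?_⟩
      rw [mem_powerset]
      intro l hl
      exact mem_sdiff.2 ⟨hU hl, fun hc => disjoint_left.1 hd hc hl⟩
  have h2 : ((F.filter fun T => On o T w ∧ ¬ (i ∈ T ∧ j ∈ T)).biUnion
      fun T => (W \ T).powerset).card ≤ 2 ^ (4 * r) := by
    refine card_biUnion_le.trans ?_
    calc ∑ T ∈ F.filter (fun T => On o T w ∧ ¬ (i ∈ T ∧ j ∈ T)), ((W \ T).powerset).card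
        ≤ ∑ _T ∈ F.filter (fun T => On o T w ∧ ¬ (i ∈ T ∧ j ∈ T)), 2 ^ (2 * r) := by
          refine sum_le_sum fun T hT => ?_
          obtain ⟨hT1, hO1, hb⟩ := mem_filter.1 hT
          rw [card_powerset]
          refine Nat.pow_le_pow_right (by norm_num) ?_
          refine le_trans (card_le_card ?_) (farB_T hR hrk2 hw hT1 hO1 hb)
          rw [hWd]
          exact sdiff_subset_sdiff sdiff_subset (Subset.refl _)
      _ = (F.filter fun T => On o T w ∧ ¬ (i ∈ T ∧ j ∈ T)).card * 2 ^ (2 * r) := by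
          rw [sum_const, smul_eq_mul]
      _ ≤ 2 * k * 2 ^ (2 * r) := by
          refine Nat.mul_le_mul_right _ ?_
          have h3 : (F.filter fun T => On o T w ∧ ¬ (i ∈ T ∧ j ∈ T)) ⊆
              (F.filter fun T => i ∈ T) ∪ F.filter fun T => j ∈ T := by
            intro T hT
            obtain ⟨hT1, hO1, -⟩ := mem_filter.1 hT
            rw [mem_union, mem_filter, mem_filter]
            rcases mem_or_mem hR hor hT1 hO1 with h4 | h4
            · exact Or.inl ⟨hT1, h4⟩
            · exact Or.inr ⟨hT1, h4⟩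
          have h4 := (card_le_card h3).trans (card_union_le _ _)
          have h5 := hR.read i
          have h6 := hR.read j
          omega
      _ ≤ 2 ^ (2 * r) * 2 ^ (2 * r) := Nat.mul_le_mul_right _ hr
      _ = 2 ^ (4 * r) := by
          rw [← pow_add]
          congr 1
          ring
  have h3 := (card_le_card h1).trans (card_union_le _ _)
  rw [card_powerset] at h3
  have h4 : 2 ^ (4 * r + 1) ≤ 2 ^ W.card := Nat.pow_le_pow_right (by norm_num) hW
  rw [pow_succ] at h4
  omega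

/-- the point `offU o U w` for a good set `U` -/
private theorem farB_img (hR : RefF o q F k L) (hh : OrL o h) {r : ℕ} {j : Fin n}
    {w : Fin n → Bool} (hw : w ∈ f2P o q F rk h r i j) {U : Finset (Fin n)}
    (hU : U ∈ farBG o F rk i j w) :
    offU o U w ∈ (pvS o q h i).filter fun x => j ∈ piv o q x := by
  obtain ⟨hor, -, -, hiT, hjT, -⟩ := mem_f2P.1 hw
  obtain ⟨hi, hj, hs, hqi, hqj, -⟩ := mem_orP.1 hor
  obtain ⟨hUs, hUg⟩ := farB_mem.1 hU
  have hqw := q_orP hR hor
  obtain ⟨hT0, hO0, -⟩ := ft_spec (rk := rk) hR hqw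
  obtain ⟨-, hO', -⟩ := ft_spec (rk := rk) hR hqj
  have hOw := ((on_off hj).1 hO').1
  have hUo : ∀ l ∈ U, w l = o l := fun l hl => hOw l (mem_sdiff.1 (hUs hl)).1
  have hU0 : ∀ l ∈ ft o F rk w, l ∉ U := fun l hl hc => (mem_sdiff.1 (hUs hc)).2 hl
  have hq' : q (offU o U w) = true :=
    (hR.iff _).2 ⟨_, hT0, on_offU.2 ⟨fun l hl => hO0 l (mem_sdiff.1 hl).1, disjoint_left.2 hU0⟩⟩
  have hoff : ∀ l, l ∉ U → offU o U w l = w l := fun l hl => by
    unfold offU
    rw [if_neg hl]
  have key : ∀ l, l ∈ ft o F rk w → w l = o l → (∀ T : Finset (Fin n), l ∉ T → ¬ (i ∈ T ∧ j ∈ T)) →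
      l ∈ piv o q (offU o U w) := by
    intro l hl hlo hlT
    rw [mem_piv]
    have h1 : offU o U w l = o l := by rw [hoff l (hU0 l hl), hlo]
    refine ⟨h1, ?_⟩
    rw [← Bool.not_eq_true]
    intro hc
    obtain ⟨T, hT, hO⟩ := (hR.iff _).1 hc
    obtain ⟨h2, h3⟩ := (on_off h1).1 hO
    obtain ⟨h4, h5⟩ := on_offU.1 h2
    rw [sdiff_eq_self_of_disjoint h5] at h4
    exact hUg T hT h4 (hlT T h3) h5
  rw [mem_filter, mem_pvS', mem_unc]
  exact ⟨⟨⟨hq', satD_offU hh hUo hs⟩, key i hiT hi fun T h1 h2 => h1 h2.1⟩,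
    key j hjT hj fun T h1 h2 => h1 h2.2⟩

/- PROOF. Let `w ∈ f2P i j`, `x := flp j w`, `y := flp i w`, `T' := ft x ∋ i`, `Ty := ft y ∋ j`, `T0 := ft w`,
`W := T' \ T0`, `|W| ≥ 4 r + 1`; `T1 ∈ F` a term which holds at `w` and does not contain both `i` and `j`.
If `j ∉ T1` then `T1` holds at `x` (`on_off`), so `rk T' ≤ rk T1`, `|T'| ≤ |T1|` (`hrk2`), and
`|T1 \ T'| ≤ r` (`w ∉ f1P i j`), so `|T' \ T1| ≤ r`. If `i ∉ T1` then in the same way `|Ty \ T1| ≤ r`, and
`|T' \ Ty| ≤ r` (`w ∉ f1P j i`, `T'` holds at `w`), so `|T' \ T1| ≤ 2 r`. So at most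
`2 k * 2 ^ (2 r) ≤ 2 ^ (|W| - 1)` of the `U ⊆ W` miss some such `T1` (`T1` contains `i` or `j`,
`mem_or_mem`; the `U` which miss `T1` are subsets of `W \ T1 ⊆ T' \ T1`), and at least
`2 ^ (|W| - 1) ≥ 2 ^ (4 r)` are good. For a good `U` let `w' := offU o U w`: `T0` holds at `w'` (`on_offU`),
`satD_offU`, every term which holds at `w'` holds at `w` and is disjoint from `U`, so contains `i` and
`j`; so `q (flp i w') = false`, `q (flp j w') = false`: `w' ∈ pvS i`, `j ∈ piv w'` (note `i, j ∈ T0`, so they are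
not in `U`). For given `T'` the map `(w, U) ↦ w'` is injective: `w l = o l` for `l ∈ T'`, `w l = w' l` for
`l ∉ T'`, and `U = {l ∈ T' | w' l ≠ o l}`. Sum over the at most `k` terms `T' ∋ i`. -/
theorem f2_le (hR : RefF o q F k L) (hrk : Function.Injective rk)
    (hrk2 : ∀ S T : Finset (Fin n), S.card < T.card → rk S < rk T) (hh : OrL o h) {r : ℕ}
    (hr : 2 * k ≤ 2 ^ (2 * r)) (j : Fin n) :
    2 ^ (4 * r) * (f2P o q F rk h r i j).card ≤
      k * ((pvS o q h i).filter fun x => j ∈ piv o q x).card := by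
  classical
  have h1 : 2 ^ (4 * r) * (f2P o q F rk h r i j).card ≤
      ((f2P o q F rk h r i j).sigma fun w => farBG o F rk i j w).card := by
    rw [card_sigma, mul_comm]
    exact card_nsmul_le_sum _ _ _ fun w hw => farB_G hR hrk2 hr hw
  have h2 : ((f2P o q F rk h r i j).sigma fun w => farBG o F rk i j w).card ≤
      ((F.filter fun T => i ∈ T) ×ˢ ((pvS o q h i).filter fun x => j ∈ piv o q x)).card := by
    refine card_le_card_of_injOn (fun z => (ft o F rk (flp j z.1), offU o z.2 z.1)) ?_ ?_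
    · rintro ⟨w, U⟩ hz
      rw [mem_coe, mem_sigma] at hz
      obtain ⟨hw, hU⟩ := hz
      obtain ⟨hor, -, -, -, -, -⟩ := mem_f2P.1 hw
      obtain ⟨hi, hj, -, -, hqj, -⟩ := mem_orP.1 hor
      obtain ⟨hT', hO', -⟩ := ft_spec (rk := rk) hR hqj
      obtain ⟨h3, h4⟩ := (on_off hj).1 hO'
      rw [mem_coe, mem_product]
      refine ⟨mem_filter.2 ⟨hT', ?_⟩, farB_img hR hh hw hU⟩
      rcases mem_or_mem hR hor hT' h3 with h5 | h5
      · exact h5
      · exact absurd h5 h4
    · rintro ⟨w, U⟩ hz ⟨w', U'⟩ hz' he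
      rw [mem_coe, mem_sigma] at hz hz'
      simp only [Prod.mk.injEq] at he
      obtain ⟨he1, he2⟩ := he
      have hT : ∀ (v : Fin n → Bool) (V : Finset (Fin n)), v ∈ f2P o q F rk h r i j →
          V ∈ farBG o F rk i j v → (∀ l ∈ ft o F rk (flp j v), v l = o l) ∧
            V ⊆ ft o F rk (flp j v) := by
        intro v V hv hV
        obtain ⟨hor, -, -, -, -, -⟩ := mem_f2P.1 hv
        obtain ⟨-, hj, -, -, hqj, -⟩ := mem_orP.1 hor
        obtain ⟨-, hO', -⟩ := ft_spec (rk := rk) hR hqj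
        exact ⟨((on_off hj).1 hO').1, (farB_mem.1 hV).1.trans sdiff_subset⟩
      obtain ⟨a1, a2⟩ := hT w U hz.1 hz.2
      obtain ⟨b1, b2⟩ := hT w' U' hz'.1 hz'.2
      rw [← he1] at b1 b2
      have e1 : w = w' := by
        funext l
        by_cases hl : l ∈ ft o F rk (flp j w)
        · rw [a1 l hl, b1 l hl]
        · have h3 := congrFun he2 l
          unfold offU at h3
          rw [if_neg fun hc => hl (a2 hc), if_neg fun hc => hl (b2 hc)] at h3
          exact h3
      subst e1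
      have e2 : ∀ V V' : Finset (Fin n), V ⊆ ft o F rk (flp j w) → offU o V w = offU o V' w →
          V ⊆ V' := by
        intro V V' hV hVV l hl
        by_contra hc
        have h3 := congrFun hVV l
        unfold offU at h3
        rw [if_pos hl, if_neg hc, a1 l (hV hl)] at h3
        exact absurd h3 (by cases o l <;> simp)
      have e3 : U = U' := Subset.antisymm (e2 U U' a2 he2) (e2 U' U b2 he2.symm)
      rw [e3]
  rw [card_product] at h2
  exact (h1.trans h2).trans (Nat.mul_le_mul_right _ (hR.read i))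

/- PROOF. `f2_le`, and `∑_j #{x ∈ pvS i | j ∈ piv x} = ∑_{x ∈ pvS i} |piv x| ≤ L |pvS i|` (`piv x ⊆ ft x ∈ F`,
`hR.len`). -/
theorem f2_sum (hR : RefF o q F k L) (hrk : Function.Injective rk)
    (hrk2 : ∀ S T : Finset (Fin n), S.card < T.card → rk S < rk T) (hh : OrL o h) {r : ℕ}
    (hr : 2 * k ≤ 2 ^ (2 * r)) (J : Finset (Fin n)) :
    2 ^ (4 * r) * ∑ j ∈ J, (f2P o q F rk h r i j).card ≤ k * L * (pvS o q h i).card := by
  classical
  have h1 : ∑ j, ((pvS o q h i).filter fun x => j ∈ piv o q x).card ≤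
      (pvS o q h i).card * L := by
    have h2 : ∀ j, ((pvS o q h i).filter fun x => j ∈ piv o q x).card =
        ∑ x ∈ pvS o q h i, if j ∈ piv o q x then 1 else 0 := fun j => card_filter _ _
    rw [sum_congr rfl fun j _ => h2 j, sum_comm]
    refine sum_le_card_nsmul _ _ _ fun x hx => ?_
    rw [← card_filter]
    have h3 : (univ.filter fun j => j ∈ piv o q x) = piv o q x := by
      ext l
      simp
    rw [h3]
    obtain ⟨hT, hO, -⟩ := ft_spec (rk := rk) hR (mem_unc.1 (mem_pvS'.1 hx).1).1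
    exact (card_le_card (piv_sub hR hT hO)).trans (hR.len _ hT)
  rw [mul_sum]
  calc ∑ j ∈ J, 2 ^ (4 * r) * (f2P o q F rk h r i j).card
      ≤ ∑ j ∈ J, k * ((pvS o q h i).filter fun x => j ∈ piv o q x).card :=
        sum_le_sum fun j _ => f2_le hR hrk hrk2 hh hr j
    _ ≤ ∑ j, k * ((pvS o q h i).filter fun x => j ∈ piv o q x).card :=
        sum_le_univ_sum_of_nonneg fun _ => Nat.zero_le _
    _ = k * ∑ j, ((pvS o q h i).filter fun x => j ∈ piv o q x).card := by rw [mul_sum]
    _ ≤ k * ((pvS o q h i).card * L) := Nat.mul_le_mul_left _ h1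
    _ = k * L * (pvS o q h i).card := by ring

end Pool.Agent.H.MP_cba12a_lc.RM
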