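import Pool.Agent.H.MP_cba12a_lc.RM.FarA
import Pool.Agent.H.MP_cba12a_lc.RM.FarB

/-!
All far pairs.
-/

namespace Pool.Agent.H.MP_cba12a_lc.RM

open Finset Pool.Agent.H.MP_cba12a_lc Pool.Agent.H.MP_cba12a_lc.RK Pool.Agent.H.MP_cba12a_lc.RL

variable {n : ℕ} {o : Fin n → Bool} {q : (Fin n → Bool) → Bool} {F : Finset (Finset (Fin n))}
  {k L : ℕ} {rk : Finset (Fin n) → ℕ} {h : List (List Lit)} {i j : Fin n}

private theorem farC_sdiff (A B C : Finset (Fin n)) :
    (A \ C).card ≤ (A \ B).card + (B \ C).card := by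
  refine (card_le_card ?_).trans (card_union_le _ _)
  intro l hl
  rw [mem_sdiff] at hl
  rw [mem_union, mem_sdiff, mem_sdiff]
  by_cases hB : l ∈ B
  · exact Or.inr ⟨hB, hl.2⟩
  · exact Or.inl ⟨hl.1, hB⟩

/- PROOF. Let `T' := ft (flp j x)`, `Ty := ft (flp i x)`, `T0 := ft x`, and suppose `x` is in none of the three
sets. Then `|T1 \ T'| ≤ r` and `|T1 \ Ty| ≤ r` for all terms `T1` which hold at `x`. If `j ∉ T0` then `T' = T0`
(`ft_flp`), if `i ∉ T0` then `Ty = T0`; otherwise `|T' \ T0| ≤ 4 r`. In all cases `|T1 \ T0| ≤ 5 r` for the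
terms `T1` which hold at `x`; `T0` is a shortest one (`ft_spec`, `hrk2`), so `|T0 \ T1| ≤ 5 r` as well, and
`|T2 \ T1| ≤ |T2 \ T0| + |T0 \ T1| ≤ 10 r`: not `Far (10 r)`. -/
theorem far_cover (hR : RefF o q F k L) (hrk : Function.Injective rk)
    (hrk2 : ∀ S T : Finset (Fin n), S.card < T.card → rk S < rk T) {r : ℕ} {x : Fin n → Bool}
    (hx : x ∈ orP o q h i j) (hf : Far o F (10 * r) x) :
    x ∈ f1P o q F rk h r i j ∨ x ∈ f1P o q F rk h r j i ∨ x ∈ f2P o q F rk h r i j := by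
  by_contra hc
  rw [not_or, not_or] at hc
  obtain ⟨h1, h2, h3⟩ := hc
  have hq : q x = true := q_orP hR hx
  have hxo := mem_orP.1 hx
  obtain ⟨hT0, hO0, hm0⟩ := ft_spec (rk := rk) hR hq
  have a1 : ∀ T1 ∈ F, On o T1 x → (T1 \ ft o F rk (flp j x)).card ≤ r := by
    intro T1 hT1 hO1
    by_contra hcc
    rw [not_le] at hcc
    exact h1 (mem_f1P.2 ⟨hx, T1, hT1, hO1, hcc⟩)
  have a2 : ∀ T1 ∈ F, On o T1 x → (T1 \ ft o F rk (flp i x)).card ≤ r := by
    intro T1 hT1 hO1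
    by_contra hcc
    rw [not_le] at hcc
    exact h2 (mem_f1P.2 ⟨orP_symm hx, T1, hT1, hO1, hcc⟩)
  have a3 : ∀ T1 ∈ F, On o T1 x → (T1 \ ft o F rk x).card ≤ 5 * r := by
    intro T1 hT1 hO1
    by_cases hj : j ∈ ft o F rk x
    · by_cases hi : i ∈ ft o F rk x
      · have h4 : (ft o F rk (flp j x) \ ft o F rk x).card ≤ 4 * r := by
          by_contra hcc
          rw [not_le] at hcc
          exact h3 (mem_f2P.2 ⟨hx, h1, h2, hi, hj, hcc⟩)
        have h5 := farC_sdiff T1 (ft o F rk (flp j x)) (ft o F rk x)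
        have h6 := a1 T1 hT1 hO1
        omega
      · have h4 := (ft_flp hR hrk hq hxo.1 hi).2
        have h5 := a2 T1 hT1 hO1
        rw [h4] at h5
        omega
    · have h4 := (ft_flp hR hrk hq hxo.2.1 hj).2
      have h5 := a1 T1 hT1 hO1
      rw [h4] at h5
      omega
  have a4 : ∀ T1 ∈ F, On o T1 x → (ft o F rk x \ T1).card ≤ 5 * r := by
    intro T1 hT1 hO1
    have h4 : (ft o F rk x).card ≤ T1.card := by
      by_contra hcc
      rw [not_le] at hcc
      exact hm0 T1 hT1 (hrk2 _ _ hcc) hO1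
    have h5 := card_sdiff_add_card_inter (ft o F rk x) T1
    have h6 := card_sdiff_add_card_inter T1 (ft o F rk x)
    have h7 := a3 T1 hT1 hO1
    rw [inter_comm] at h6
    omega
  obtain ⟨T', hT', T'', hT'', hO', hO'', hlt⟩ := hf
  have h5 := farC_sdiff T'' (ft o F rk x) T'
  have h6 := a3 T'' hT'' hO''
  have h7 := a4 T' hT' hO'
  omega

/- PROOF. `orN (Far (10 r)) (nbr i) i ≤ ∑_{j ∈ nbr i} (|f1P i j| + |f1P j i| + |f2P i j|)` by `far_cover`.
`f1_sum` with `hr` gives `∑_{j ∈ nbr i} |f1P i j| ≤ |pvS i|`, `f2_sum` (`k L ≤ 2 ^ (4 r)`,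
`2 k ≤ 2 ^ (2 r)`) gives `∑_{j ∈ nbr i} |f2P i j| ≤ |pvS i|`, and
`∑_i ∑_{j ∈ nbr i} |f1P j i| = ∑_j ∑_{i ∈ nbr j} |f1P j i|` as `j ∈ nbr i ↔ i ∈ nbr j` (`mem_nbr`). -/
theorem far_sum (hR : RefF o q F k L) (hrk : Function.Injective rk)
    (hrk2 : ∀ S T : Finset (Fin n), S.card < T.card → rk S < rk T) (hh : OrL o h) (hL : 1 ≤ L)
    {r : ℕ} (hr : 2 * k ^ 2 * L ≤ 2 ^ r) :
    ∑ i, orN o q h (Far o F (10 * r)) (nbr F i) i ≤ 3 * ∑ i, (pvS o q h i).card := by
  classical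
  have hk : 2 * k ≤ 2 * k ^ 2 * L ∧ k * L ≤ 2 * k ^ 2 * L := by
    rcases Nat.eq_zero_or_pos k with rfl | hk
    · simp
    · constructor
      · calc 2 * k = 2 * k * 1 * 1 := by ring
          _ ≤ 2 * k * k * L := by gcongr <;> omega
          _ = 2 * k ^ 2 * L := by ring
      · calc k * L = 1 * k * 1 * L := by ring
          _ ≤ 2 * k * k * L := by gcongr <;> omega
          _ = 2 * k ^ 2 * L := by ring
  have hp1 : (2 : ℕ) ^ r ≤ 2 ^ (2 * r) := Nat.pow_le_pow_right (by norm_num) (by omega)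
  have hp2 : (2 : ℕ) ^ r ≤ 2 ^ (4 * r) := Nat.pow_le_pow_right (by norm_num) (by omega)
  have hA : ∀ i, ∑ j ∈ nbr F i, (f1P o q F rk h r i j).card ≤ (pvS o q h i).card := by
    intro i
    have h1 := f1_sum (i := i) hR hrk hh r
    have h2 : 2 ^ r * ∑ j ∈ nbr F i, (f1P o q F rk h r i j).card ≤
        2 ^ r * (pvS o q h i).card := h1.trans (Nat.mul_le_mul_right _ hr)
    exact Nat.le_of_mul_le_mul_left h2 (by positivity)
  have hC : ∀ i, ∑ j ∈ nbr F i, (f2P o q F rk h r i j).card ≤ (pvS o q h i).card := by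
    intro i
    have h1 := f2_sum (i := i) hR hrk hrk2 hh (r := r) (by omega) (nbr F i)
    have h2 : 2 ^ (4 * r) * ∑ j ∈ nbr F i, (f2P o q F rk h r i j).card ≤
        2 ^ (4 * r) * (pvS o q h i).card := h1.trans (Nat.mul_le_mul_right _ (by omega))
    exact Nat.le_of_mul_le_mul_left h2 (by positivity)
  have hB : ∑ i, ∑ j ∈ nbr F i, (f1P o q F rk h r j i).card =
      ∑ j, ∑ i ∈ nbr F j, (f1P o q F rk h r j i).card := by
    refine sum_comm' fun a b => ?_
    simp only [mem_univ, true_and, and_true]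
    rw [mem_nbr, mem_nbr]
    constructor
    · rintro ⟨T, hT, h1, h2⟩
      exact ⟨T, hT, h2, h1⟩
    · rintro ⟨T, hT, h1, h2⟩
      exact ⟨T, hT, h2, h1⟩
  have hO : ∀ i, orN o q h (Far o F (10 * r)) (nbr F i) i ≤
      ∑ j ∈ nbr F i, (f1P o q F rk h r i j).card + ∑ j ∈ nbr F i, (f1P o q F rk h r j i).card +
        ∑ j ∈ nbr F i, (f2P o q F rk h r i j).card := by
    intro i
    unfold orN
    rw [← sum_add_distrib, ← sum_add_distrib]
    refine sum_le_sum fun j _ => ?_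
    have h1 : (orP o q h i j).filter (Far o F (10 * r)) ⊆
        (f1P o q F rk h r i j ∪ f1P o q F rk h r j i) ∪ f2P o q F rk h r i j := by
      intro x hx
      rw [mem_filter] at hx
      rw [mem_union, mem_union, or_assoc]
      exact far_cover hR hrk hrk2 hx.1 hx.2
    refine le_trans (le_of_eq ?_) ((card_le_card h1).trans ((card_union_le _ _).trans
      (Nat.add_le_add_right (card_union_le _ _) _)))
    congr!
  calc ∑ i, orN o q h (Far o F (10 * r)) (nbr F i) i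
      ≤ ∑ i, (∑ j ∈ nbr F i, (f1P o q F rk h r i j).card +
          ∑ j ∈ nbr F i, (f1P o q F rk h r j i).card +
          ∑ j ∈ nbr F i, (f2P o q F rk h r i j).card) := sum_le_sum fun i _ => hO i
    _ = ∑ i, ∑ j ∈ nbr F i, (f1P o q F rk h r i j).card +
          ∑ j, ∑ i ∈ nbr F j, (f1P o q F rk h r j i).card +
          ∑ i, ∑ j ∈ nbr F i, (f2P o q F rk h r i j).card := by
        rw [sum_add_distrib, sum_add_distrib, hB]
    _ ≤ ∑ i, (pvS o q h i).card + ∑ i, (pvS o q h i).card + ∑ i, (pvS o q h i).card := by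
        refine Nat.add_le_add (Nat.add_le_add ?_ ?_) ?_
        · exact sum_le_sum fun i _ => hA i
        · exact sum_le_sum fun i _ => hA i
        · exact sum_le_sum fun i _ => hC i
    _ = 3 * ∑ i, (pvS o q h i).card := by ring

end Pool.Agent.H.MP_cba12a_lc.RM
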