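import Pool.Agent.H.MP_cba12a_lc.RL.VisT

/-!
A term of large mass almost all of whose variables are visible.
-/

namespace Pool.Agent.H.MP_cba12a_lc.RM

open Finset Pool.Agent.H.MP_cba12a_lc Pool.Agent.H.MP_cba12a_lc.RK Pool.Agent.H.MP_cba12a_lc.RL

variable {n : ℕ} {o : Fin n → Bool} {q : (Fin n → Bool) → Bool} {F : Finset (Finset (Fin n))}
  {k L r l κ Λ Λ0 : ℕ} {rk : Finset (Fin n) → ℕ} {h : List (List Lit)} {i : Fin n}

/-- with the threshold `n` the bad terms have no mass -/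
theorem badM_zero : badM o q F rk n h i = 0 := by
  unfold badM
  refine sum_eq_zero fun T hT => ?_
  rw [mem_badT] at hT
  by_contra h0
  refine hT.2.2 ?_
  have h1 : 1 ≤ 2 ^ T.card * (fstT o q F rk h i T).card :=
    Nat.one_le_iff_ne_zero.2 (Nat.mul_ne_zero (by positivity) h0)
  exact Nat.le_mul_of_pos_right _ h1

theorem vis_term3 (hR : RefF o q F k L) (hrk : Function.Injective rk) (hh : OrL o h)
    (hk : k ≤ 2 ^ κ) (hM : 0 < (pvS o q h i).card)
    (hor : orN o q h (fun x => ¬ Far o F r x ∧ ¬ Shr o F l x) univ i +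
      orN o q h (Far o F r) (nbr F i) i ≤ Λ0 * (pvS o q h i).card)
    (hΛ : 4 * (κ + Λ0 + 2) ≤ Λ) (hΛ' : l + r ≤ Λ) {V : Finset (Fin n)}
    (hV : ∀ j, j ≠ i → j ∉ V → k * L * (cU o q h i j).card ≤
      k * L * (cD o q h i j).card + (pvS o q h i).card) :
    ∃ T ∈ F, i ∈ T ∧ (pvS o q h i).card ≤ 2 * (k ^ 2 * L) * (fstT o q F rk h i T).card ∧
      (T.erase i \ V).card ≤ Λ := by
  obtain ⟨T, h1, h2, h3, -, h4⟩ := vis_term2 (s := n) hR hrk hh hk hM
    (by rw [badM_zero, mul_zero]; exact Nat.zero_le _) hor hΛ hΛ' hV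
  exact ⟨T, h1, h2, h3, h4⟩

end Pool.Agent.H.MP_cba12a_lc.RM
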