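import Pool.Agent.H.MP_cba12a_lc.RM.Step
import Pool.Agent.H.MP_cba12a_lc.RM.VisC
import Pool.Agent.H.MP_cba12a_lc.RM.FarC
import Pool.Agent.H.MP_cba12a_lc.RM.Core
import Pool.Agent.H.MP_cba12a_lc.RL.NearOr
import Pool.Agent.H.MP_cba12a_lc.RK.VisA
import Pool.Agent.H.MP_cba12a_lc.RK.Core

/-!
The isoperimetric inequality at the end of the algorithm, and the error of the hypothesis.
-/

namespace Pool.Agent.H.MP_cba12a_lc.RM

open Finset Pool.Agent.H.MP_cba12a_lc Pool.Agent.H.MP_cba12a_lc.RK Pool.Agent.H.MP_cba12a_lc.RL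

variable {n m : ℕ} {o : Fin n → Bool} {f q : (Fin n → Bool) → Bool} {ω : Fin m → Fin n → Bool}
  {R : ℕ} {τ : ℝ} {V : List Lit}

/-- if no candidate passes then the sum of the masses of the pivotal points is small -/
theorem iso_final3 {F : Finset (Finset (Fin n))} {rk : Finset (Fin n) → ℕ}
    {k L K κ Λ r c b N M A0 B Θ : ℕ} {ρ : ℝ} {H : List (List Lit)}
    (hS : Smp o f q ω R τ V) (hR : RefF o q F k L) (hrk : Function.Injective rk)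
    (hrk2 : ∀ S T : Finset (Fin n), S.card < T.card → rk S < rk T)
    (hFV : ∀ T ∈ F, ∀ j ∈ T, ((j : ℕ), o j) ∈ V)
    (hr : H.length ≤ R) (hh : ∀ D ∈ H, ∀ l ∈ D, l ∈ V) (hKe : K = k ^ 2 * L)
    (hc : (27 / 64 : ℝ) ^ c * (2 * K) < 1) (hK : k ≤ K) (hκ : k ≤ 2 ^ κ)
    (hL : 1 ≤ L) (hr2 : 2 * k ^ 2 * L ≤ 2 ^ r)
    (hΛ : 30 * r + 68 * κ + 32 ≤ Λ)
    (hΘ : Θ = 2 * (Λ * 2 ^ Λ)) (hMb : 8 * Θ ^ 2 * b ≤ M) (hb : (1 / 2 : ℝ) ^ b ≤ ρ / (4 * A0))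
    (hN1 : (2 * k * L ^ 2 + 1) ^ (3 * c) ≤ N) (hN3 : (M + 1) ^ Λ ≤ N)
    (hN2 : (1 / ρ) ^ 10 ≤ (N : ℝ)) (hA0 : 1 ≤ A0)
    (hτ1 : 256 * τ ≤ ρ) (hτ2 : (32 * L + 12) * τ ≤ ρ) (hτ3 : 16 * Θ * τ ≤ ρ / (4 * A0))
    (hτ4 : 4 * (A0 + 1) * τ ≤ ρ) (hB : 1 ≤ ρ / 2 * B)
    (hgood : goodM A0 B N (3 * c) M Θ Λ (4 * k * L) V (smp f ω) H = []) :
    2 * mu (ev q true [] H) * mu (ev q false [] H) ≤ n * (4 * K * ρ) := by
  have hτ := hS.hτ
  have hρ0 : 0 < ρ := by linarith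
  have hp : (0 : ℝ) < 2 ^ n := by positivity
  have hhO : OrL o H := fun D hD l hl => hS.lits l (hh D hD l hl)
  have hkρ : 0 ≤ 2 * (K : ℝ) * ρ := by positivity
  obtain ⟨l, hl⟩ : ∃ l : ℕ, l = 20 * r + 4 * κ := ⟨_, rfl⟩
  obtain ⟨G, hG⟩ : ∃ G : Fin n → ℕ, G = fun i =>
    orN o q H (fun x => ¬ Far o F (10 * r) x ∧ ¬ RL.Shr o F l x) univ i +
      orN o q H (Far o F (10 * r)) (nbr F i) i := ⟨_, rfl⟩
  have hi : ∀ i, mu (pv q H i (o i) []) ≤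
      2 * K * ρ + ((G i : ℕ) : ℝ) / 2 ^ n / (16 * κ + 6) := by
    intro i
    by_contra hcon
    rw [not_le] at hcon
    have h0' : (0 : ℝ) ≤ ((G i : ℕ) : ℝ) / 2 ^ n / (16 * κ + 6) := by positivity
    have hM : 0 < mu (pv q H i (o i) []) := by linarith
    have hMS : 0 < (pvS o q H i).card := by
      rw [mu_pv_eq] at hM
      by_contra hcon'
      have h0 : (pvS o q H i).card = 0 := by omega
      rw [h0] at hM
      simp at hM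
    refine step_m hS hR hrk hFV hr hh hc hK hΘ hMb hb hN1 hN3 hN2 hA0 hτ1 hτ2 hτ3 hτ4 hB
      (i := i) ?_ hM ?_ hgood
    · linarith
    · intro W hW
      rw [mu_pv_eq] at hcon
      rw [hKe]
      refine vis_term3 (κ := κ) (r := 10 * r) (l := l) (Λ0 := 16 * κ + 6) hR hrk hhO hκ hMS ?_
        (by omega) (by omega) hW
      have h1 : ((G i : ℕ) : ℝ) / 2 ^ n / (16 * κ + 6) <
          ((pvS o q H i).card : ℝ) / 2 ^ n := by linarith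
      rw [div_right_comm, div_lt_div_iff_of_pos_right hp, div_lt_iff₀ (by positivity)] at h1
      have h2 : (G i : ℝ) ≤ ((16 * κ + 6 : ℕ) : ℝ) * ((pvS o q H i).card : ℝ) := by
        push_cast
        linarith
      have h3 : G i ≤ (16 * κ + 6) * (pvS o q H i).card := by exact_mod_cast h2
      rw [hG] at h3
      exact h3
  have h1 := iso_pv hR.up (h := H) fun D hD l hl => hS.lits l (hh D hD l hl)
  obtain ⟨E, hE⟩ : ∃ E : ℝ, E = ∑ i, mu (pv q H i (o i) []) := ⟨_, rfl⟩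
  have hE' : E = ((∑ i, (pvS o q H i).card : ℕ) : ℝ) / 2 ^ n := by
    rw [hE]
    push_cast
    rw [sum_div]
    exact sum_congr rfl fun i _ => mu_pv_eq
  have h2 : E ≤ n * (2 * K * ρ) + (∑ i, ((G i : ℕ) : ℝ) / 2 ^ n) / (16 * κ + 6) := by
    rw [hE]
    refine (sum_le_sum fun i _ => hi i).trans (le_of_eq ?_)
    rw [sum_add_distrib, sum_const, card_univ, Fintype.card_fin, nsmul_eq_mul, sum_div]
  -- the pairs
  have hnear : ∑ i, orN o q H (fun x => ¬ Far o F (10 * r) x ∧ ¬ RL.Shr o F l x) univ i ≤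
      8 * κ * ∑ i, (pvS o q H i).card := near_or (rk := rk) hR hrk hhO hκ (by omega) (by omega)
  have hfar := far_sum (h := H) hR hrk hrk2 hhO hL hr2
  have h11 : ∑ i, ((G i : ℕ) : ℝ) / 2 ^ n ≤ (8 * κ + 3) * E := by
    have e1 : ∑ i, G i ≤ (8 * κ + 3) * ∑ i, (pvS o q H i).card := by
      rw [hG, sum_add_distrib, add_mul]
      exact Nat.add_le_add hnear hfar
    have e2 : ∑ i, ((G i : ℕ) : ℝ) / 2 ^ n = ((∑ i, G i : ℕ) : ℝ) / 2 ^ n := by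
      push_cast
      rw [sum_div]
    rw [e2, hE', ← mul_div_assoc, div_le_div_iff_of_pos_right hp]
    exact_mod_cast e1
  have hE0 : 0 ≤ E := by rw [hE']; positivity
  have h12 : (∑ i, ((G i : ℕ) : ℝ) / 2 ^ n) / (16 * κ + 6) ≤ 1 / 2 * E := by
    rw [div_le_iff₀ (by positivity)]
    refine h11.trans (le_of_eq ?_)
    ring
  rw [← hE] at h1
  linarith

/-- an order of the sets of variables by their size -/
theorem exists_rk (n : ℕ) : ∃ rk : Finset (Fin n) → ℕ, Function.Injective rk ∧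
    ∀ S T : Finset (Fin n), S.card < T.card → rk S < rk T := by
  classical
  obtain ⟨N, e, hN⟩ : ∃ N : ℕ, ∃ e : Finset (Fin n) → ℕ, Function.Injective e ∧ ∀ S, e S < N :=
    ⟨_, fun S => (Fintype.equivFin (Finset (Fin n)) S : ℕ),
      fun S T h => (Fintype.equivFin _).injective (Fin.ext h), fun S => (Fintype.equivFin _ S).2⟩
  have hlt : ∀ S T : Finset (Fin n), S.card < T.card → S.card * N + e S < T.card * N + e T := by
    intro S T h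
    have h1 := hN.2 S
    have h2 : (S.card + 1) * N ≤ T.card * N := Nat.mul_le_mul_right _ h
    rw [add_mul, one_mul] at h2
    omega
  refine ⟨fun S => S.card * N + e S, fun S T h => ?_, hlt⟩
  have h' : S.card * N + e S = T.card * N + e T := h
  rcases lt_trichotomy S.card T.card with h1 | h1 | h1
  · have := hlt S T h1
    omega
  · rw [h1] at h'
    exact hN.1 (by omega)
  · have := hlt T S h1
    omega

/-- the error of the hypothesis -/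
theorem core_error3 {F : Finset (Finset (Fin n))}
    {k L K κ Λ r c b N M A0 B Θ a : ℕ} {ρ : ℝ}
    (hS : Smp o f q ω R τ V) (hR : RefF o q F k L)
    (hFV : ∀ T ∈ F, ∀ j ∈ T, ((j : ℕ), o j) ∈ V) (hKe : K = k ^ 2 * L)
    (hc : (27 / 64 : ℝ) ^ c * (2 * K) < 1) (hK : k ≤ K) (hκ : k ≤ 2 ^ κ)
    (hL : 1 ≤ L) (hr2 : 2 * k ^ 2 * L ≤ 2 ^ r)
    (hΛ : 30 * r + 68 * κ + 32 ≤ Λ)
    (hΘ : Θ = 2 * (Λ * 2 ^ Λ)) (hMb : 8 * Θ ^ 2 * b ≤ M) (hb : (1 / 2 : ℝ) ^ b ≤ ρ / (4 * A0))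
    (hN1 : (2 * k * L ^ 2 + 1) ^ (3 * c) ≤ N) (hN3 : (M + 1) ^ Λ ≤ N)
    (hN2 : (1 / ρ) ^ 10 ≤ (N : ℝ)) (hA0 : 1 ≤ A0)
    (hτ1 : 256 * τ ≤ ρ) (hτ2 : (32 * L + 12) * τ ≤ ρ) (hτ3 : 16 * Θ * τ ≤ ρ / (4 * A0))
    (hτ4 : 4 * (A0 + 1) * τ ≤ ρ) (hB0 : 0 < B) (hB : 1 ≤ ρ / 2 * B)
    (hRB : 1 < R * (1 / (B : ℝ) - τ)) (ha : 1 ≤ a) (hτa : 32 * a * τ ≤ 1)
    (hFP : 1 / (A0 : ℝ) + R * (2 * τ) ≤ 1 / (16 * a))
    (hfin : n * (4 * K * ρ) ≤ 1 / (8 * a ^ 2)) :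
    mu (errE f (fin4 a (smp f ω)
      (coreM A0 B R N (3 * c) M Θ Λ (4 * k * L) V (smp f ω)))) ≤ 1 / a := by
  obtain ⟨rk, hrk, hrk2⟩ := exists_rk n
  obtain ⟨H, hH, hlen, hlit, hfp, hgood⟩ := coreM_spec (A := A0) (B := B) (R := R) (N := N)
    (a := 3 * c) (M := M) (Θ := Θ) (D := Λ) (κ := 4 * k * L) hS.hm (by omega) hB0 hS.hτ hS.rep
    hRB (V := V) (fun l hl => by
      obtain ⟨i, rfl⟩ := hS.lits l hl
      exact i.2)
  rw [hH]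
  refine fin_error hS.hm ha hS.hτ hτa hS.rep hS.dist (hfp.trans hFP) fun _ => ?_
  exact (iso_final3 hS hR hrk hrk2 hFV hlen hlit hKe hc hK hκ hL hr2 hΛ hΘ hMb hb
    hN1 hN3 hN2 hA0 hτ1 hτ2 hτ3 hτ4 hB hgood).trans hfin

end Pool.Agent.H.MP_cba12a_lc.RM
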