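import Pool.Agent.H.MP_cba12a_lc.RM.Defs

/-!
The classes of the first term are closed under switching off variables outside the term.
-/

namespace Pool.Agent.H.MP_cba12a_lc.RM

open Finset Pool.Agent.H.MP_cba12a_lc Pool.Agent.H.MP_cba12a_lc.RK Pool.Agent.H.MP_cba12a_lc.RL

variable {n : ℕ} {o : Fin n → Bool} {q : (Fin n → Bool) → Bool} {F : Finset (Finset (Fin n))}
  {k L : ℕ} {rk : Finset (Fin n) → ℕ} {h : List (List Lit)} {i : Fin n}

/- PROOF. `mem_fstT`, `pv_iff`. `i ∈ T` (`mem_of_pivot`), so `l ≠ i`; `T` holds at `flp l x` (`on_off`),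
so `q (flp l x) = true`; `satD_flp_off`; `q (flp i (flp l x)) = false` by `pivot_off`; a term which
holds at `flp l x` holds at `x`. -/
theorem fstT_off (hR : RefF o q F k L) (hh : OrL o h) {T : Finset (Fin n)} (hT : T ∈ F)
    {x : Fin n → Bool} (hx : x ∈ fstT o q F rk h i T) {l : Fin n} (hl : x l = o l) (hlT : l ∉ T) :
    flp l x ∈ fstT o q F rk h i T := by
  rw [mem_fstT, pv_iff] at hx
  obtain ⟨⟨h1, h2, h3, h4, h5⟩, h6, h7⟩ := hx
  have hiT : i ∈ T := mem_of_pivot hR hT h6 h4
  have hli : l ≠ i := by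
    rintro rfl
    exact hlT hiT
  have hO : On o T (flp l x) := (on_off hl).2 ⟨h6, hlT⟩
  rw [mem_fstT, pv_iff]
  refine ⟨⟨?_, (hR.iff _).2 ⟨T, hT, hO⟩, satD_flp_off hh hl h3, pivot_off hR hli hl h4,
    sat_nil _⟩, hO, fun S hS hlt hc => h7 S hS hlt ((on_off hl).1 hc).1⟩
  rw [flp_ne hli.symm]
  exact h1

open Classical in
/- PROOF. Induction on `W`. For `insert l W`: the set `X` of the `x ∈ fstT` with `On o (insert l W) x` and its
image under `flp l` are disjoint (value at `l`) subsets of the `x ∈ fstT` with `On o W x`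
(`fstT_off`), and `flp l` is injective. So `2 * |X| ≤ |{x ∈ fstT | On o W x}|`. -/
theorem har (hR : RefF o q F k L) (hh : OrL o h) {T : Finset (Fin n)} (hT : T ∈ F)
    (W : Finset (Fin n)) (hW : Disjoint W T) :
    2 ^ W.card * ((fstT o q F rk h i T).filter fun x => On o W x).card ≤
      (fstT o q F rk h i T).card := by
  induction W using Finset.induction_on with
  | empty =>
    rw [card_empty, pow_zero, one_mul]
    exact card_filter_le _ _
  | insert l W hlW ih =>
    rw [disjoint_insert_left] at hW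
    obtain ⟨hlT, hWT⟩ := hW
    have h1 := ih hWT
    rw [card_insert_of_notMem hlW, pow_succ]
    set X := (fstT o q F rk h i T).filter fun x => On o (insert l W) x with hX
    set Y := (fstT o q F rk h i T).filter fun x => On o W x with hY
    have hmem : ∀ x, x ∈ X → x ∈ fstT o q F rk h i T ∧ x l = o l ∧ On o W x := by
      intro x hx
      rw [hX, mem_filter] at hx
      exact ⟨hx.1, hx.2 l (mem_insert_self _ _), fun j hj => hx.2 j (mem_insert_of_mem hj)⟩
    have hdis : Disjoint X (X.image (flp l)) := by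
      rw [disjoint_left]
      intro x hx hx'
      obtain ⟨y, hy, rfl⟩ := mem_image.1 hx'
      have h2 := (hmem _ hx).2.1
      have h3 := (hmem _ hy).2.1
      rw [flp_same, h3] at h2
      exact absurd h2 (by cases o l <;> simp)
    have hsub : X ∪ X.image (flp l) ⊆ Y := by
      intro x hx
      rw [hY, mem_filter]
      rcases mem_union.1 hx with hx | hx
      · exact ⟨(hmem _ hx).1, (hmem _ hx).2.2⟩
      · obtain ⟨y, hy, rfl⟩ := mem_image.1 hx
        obtain ⟨h2, h3, h4⟩ := hmem _ hy
        exact ⟨fstT_off hR hh hT h2 h3 hlT, (on_off h3).2 ⟨h4, hlW⟩⟩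
    have hcard : (X.image (flp l)).card = X.card := card_image_of_injective _ (flp_inj l)
    have h2 := card_le_card hsub
    rw [card_union_of_disjoint hdis, hcard] at h2
    calc 2 ^ W.card * 2 * X.card = 2 ^ W.card * (X.card + X.card) := by ring
      _ ≤ 2 ^ W.card * Y.card := Nat.mul_le_mul_left _ h2
      _ ≤ _ := h1

end Pool.Agent.H.MP_cba12a_lc.RM
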