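import Pool.Agent.H.MP_cba12a_lc.RM.NumA

/-!
The bounds for the lengths of the lists. Model: RL/NumA.lean, RL/NumD.lean.
-/

namespace Pool.Agent.H.MP_cba12a_lc.RM

open Pool.Agent.H.MP_5be563_lc.PT Pool.Agent.H.MP_cba12a_lc Pool.Agent.H.MP_cba12a_lc.RK

private theorem NumB_mul (x y : ℕ) : Nat.clog 2 (x * y) ≤ Nat.clog 2 x + Nat.clog 2 y := by
  refine Nat.clog_le_of_le_pow ?_
  rw [pow_add]
  exact Nat.mul_le_mul (Nat.le_pow_clog one_lt_two x) (Nat.le_pow_clog one_lt_two y)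

private theorem NumB_exp (x : ℕ) : (x + 1) ^ 2 ≤ 9 * 2 ^ x := by
  induction x with
  | zero => norm_num
  | succ x ih =>
    rcases Nat.lt_or_ge x 2 with h | h
    · interval_cases x <;> norm_num
    · have h1 : (x + 1 + 1) ^ 2 ≤ 2 * (x + 1) ^ 2 := by
        obtain ⟨y, rfl⟩ := Nat.exists_eq_add_of_le h
        nlinarith [Nat.zero_le (y ^ 2), Nat.zero_le y]
      calc (x + 1 + 1) ^ 2 ≤ 2 * (x + 1) ^ 2 := h1
        _ ≤ 2 * (9 * 2 ^ x) := Nat.mul_le_mul_left 2 ih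
        _ = _ := by ring

private theorem NumB_clog (l : ℕ) (hl : 1 ≤ l) : Nat.clog 2 l ^ 2 ≤ 9 * l := by
  rcases Nat.lt_or_ge l 2 with h | h
  · have : l = 1 := by omega
    subst this
    rw [Nat.clog_one_right]
    norm_num
  · have h1 : 0 < Nat.clog 2 l := Nat.clog_pos one_lt_two h
    have h2 : 2 ^ (Nat.clog 2 l).pred < l := Nat.pow_pred_clog_lt_self one_lt_two (by omega)
    obtain ⟨m, hm⟩ : ∃ m, Nat.clog 2 l = m + 1 := ⟨Nat.clog 2 l - 1, by omega⟩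
    rw [hm, Nat.pred_succ] at h2
    rw [hm]
    exact (NumB_exp m).trans (Nat.mul_le_mul_left 9 h2.le)

/- PROOF. `ℓ := clog (n + a + 1)`, `w := clog k`, `v ≤ w + clog ℓ + 1` (`clog (x y) ≤ clog x + clog y`),
`v ^ 2 ≤ 3 (w ^ 2 + (clog ℓ) ^ 2 + 1) ≤ 3 w ^ 2 + 27 ℓ + 3` (`(clog ℓ) ^ 2 ≤ 9 ℓ`, as in RL/NumD.lean),
`2 ^ ℓ ≤ 2 (n + a + 1)` (`two_pow_clog_le`), so
`2 ^ v ^ 2 ≤ bd k ^ 3 * (2 (n + a + 1)) ^ 27 * 8 ≤ (4 bd k (n + a + 1)) ^ 27`. -/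
theorem two_pow_sq_le (n k a : ℕ) (hk : 1 ≤ k) (ha : 1 ≤ a) :
    2 ^ (vv n k a ^ 2) ≤ (4 * bd k * (n + a + 1)) ^ 27 := by
  have hl := ell_pos (n := n) ha
  have h2l : 2 ^ Nat.clog 2 (n + a + 1) ≤ 2 * (n + a + 1) := two_pow_clog_le (n + a + 1) (by omega)
  have hv : vv n k a ≤ Nat.clog 2 k + Nat.clog 2 (Nat.clog 2 (n + a + 1)) + 1 := by
    unfold vv
    exact Nat.add_le_add_right (NumB_mul _ _) 1
  have hu := NumB_clog _ hl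
  unfold bd
  revert hl h2l hv hu
  generalize Nat.clog 2 (n + a + 1) = l
  generalize Nat.clog 2 k = w
  generalize Nat.clog 2 l = u
  generalize vv n k a = v
  intro hl h2l hv hu
  have h1 : v ^ 2 ≤ 3 * w ^ 2 + 27 * l + 3 := by
    calc v ^ 2 ≤ (w + u + 1) ^ 2 := Nat.pow_le_pow_left hv 2
      _ ≤ 3 * w ^ 2 + 3 * u ^ 2 + 3 := by
        zify
        nlinarith [sq_nonneg ((w : ℤ) - u), sq_nonneg ((w : ℤ) - 1), sq_nonneg ((u : ℤ) - 1)]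
      _ ≤ 3 * w ^ 2 + 27 * l + 3 := by omega
  have hb : 1 ≤ 2 ^ (w ^ 2) := Nat.one_le_two_pow
  calc 2 ^ (v ^ 2) ≤ 2 ^ (3 * w ^ 2 + 27 * l + 3) := Nat.pow_le_pow_right (by norm_num) h1
    _ = (2 ^ (w ^ 2)) ^ 3 * (2 ^ l) ^ 27 * 2 ^ 3 := by
      rw [← pow_mul, ← pow_mul, ← pow_add, ← pow_add]
      congr 1
      ring
    _ ≤ (2 ^ (w ^ 2)) ^ 27 * (2 * (n + a + 1)) ^ 27 * 2 ^ 27 :=
      Nat.mul_le_mul (Nat.mul_le_mul (Nat.pow_le_pow_right hb (by norm_num))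
        (Nat.pow_le_pow_left h2l 27)) (Nat.pow_le_pow_right (by norm_num) (by norm_num))
    _ = (4 * 2 ^ (w ^ 2) * (n + a + 1)) ^ 27 := by
      rw [← mul_pow, ← mul_pow]
      congr 1
      ring

private theorem NumB_pP {n k a c2 : ℕ} (hk : 1 ≤ k) (ha : 1 ≤ a) (hc2 : c2 = 2 ^ 20) :
    1 ≤ pP c2 n k a := by
  unfold pP
  exact Nat.mul_pos (Nat.mul_pos (Nat.mul_pos (Nat.pow_pos hk) (pL_pos hc2)) (Nat.pow_pos ha))
    (Nat.succ_pos n)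

/- PROOF. `X ^ c ≤ 2 ^ (E * v * (F * v)) = (2 ^ v ^ 2) ^ (E * F) ≤ (4 bd k (n + a + 1)) ^ (27 * (E * F))`,
and `1 ≤ (64 pP) ^ 10`. -/
theorem pow_le_pN {n k a c2 c3 X c E F : ℕ} (hk : 1 ≤ k) (ha : 1 ≤ a) (hc2 : c2 = 2 ^ 20)
    (hX : X ≤ 2 ^ (E * vv n k a)) (hc : c ≤ F * vv n k a) (hE : 27 * (E * F) ≤ c3) :
    X ^ c ≤ pN c2 c3 (bd k) n k a := by
  have hP := NumB_pP (n := n) hk ha hc2
  have hbd : 0 < bd k := by
    unfold bd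
    positivity
  have hB : 1 ≤ 4 * bd k * (n + a + 1) := Nat.mul_pos (Nat.mul_pos (by norm_num) hbd) (by omega)
  unfold pN
  calc X ^ c ≤ (2 ^ (E * vv n k a)) ^ c := Nat.pow_le_pow_left hX c
    _ ≤ (2 ^ (E * vv n k a)) ^ (F * vv n k a) :=
      Nat.pow_le_pow_right (Nat.two_pow_pos _) hc
    _ = (2 ^ (vv n k a ^ 2)) ^ (E * F) := by
      rw [← pow_mul, ← pow_mul]
      congr 1
      ring
    _ ≤ ((4 * bd k * (n + a + 1)) ^ 27) ^ (E * F) :=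
      Nat.pow_le_pow_left (two_pow_sq_le n k a hk ha) _
    _ = (4 * bd k * (n + a + 1)) ^ (27 * (E * F)) := by rw [← pow_mul]
    _ ≤ (4 * bd k * (n + a + 1)) ^ c3 := Nat.pow_le_pow_right hB hE
    _ ≤ _ := Nat.le_mul_of_pos_right _ (Nat.pow_pos (by omega))

/- PROOF. `2 k L ^ 2 + 1 ≤ 2 ^ (46 v)`, `2 (k ^ 2 L) ≤ 2 ^ (25 v)` (`num_r`), so the exponent is at most
`3 (25 v + 1) ≤ 78 v`; `pow_le_pN` with `E := 46`, `F := 78`. -/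
theorem num_N1 {n k a c2 c3 : ℕ} (hk : 1 ≤ k) (ha : 1 ≤ a) (hc2 : c2 = 2 ^ 20)
    (hc3 : c3 = 2 ^ 28) :
    (2 * k * pL c2 n k a ^ 2 + 1) ^ (3 * (Nat.clog 2 (2 * (k ^ 2 * pL c2 n k a)) + 1)) ≤
      pN c2 c3 (bd k) n k a := by
  have hv := vv_pos n k a
  refine pow_le_pN (E := 46) (F := 78) hk ha hc2 ?_ ?_ (by rw [hc3]; norm_num)
  · have h1 : 2 * k * pL c2 n k a ^ 2 ≤ 2 ^ (42 + 3 * vv n k a) := by
      calc 2 * k * pL c2 n k a ^ 2 ≤ 2 ^ vv n k a * (2 ^ (21 + vv n k a)) ^ 2 :=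
            Nat.mul_le_mul (k_le ha) (Nat.pow_le_pow_left (pL_le hk hc2) 2)
        _ = 2 ^ (42 + 3 * vv n k a) := by
          rw [← pow_mul, ← pow_add]
          congr 1
          ring
    calc 2 * k * pL c2 n k a ^ 2 + 1 ≤ 2 ^ (42 + 3 * vv n k a) + 2 ^ (42 + 3 * vv n k a) :=
          Nat.add_le_add h1 (Nat.two_pow_pos _)
      _ = 2 ^ (42 + 3 * vv n k a + 1) := by rw [pow_succ, mul_two]
      _ ≤ 2 ^ (46 * vv n k a) := by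
        refine Nat.pow_le_pow_right (by norm_num) ?_
        omega
  · have h1 : Nat.clog 2 (2 * (k ^ 2 * pL c2 n k a)) ≤ 25 * vv n k a := by
      refine Nat.clog_le_of_le_pow ?_
      rw [← mul_assoc]
      exact num_r hk ha hc2
    omega

/- PROOF. `pM + 1 ≤ 2 ^ (3 + 4040 v + 21 + v + 1) ≤ 2 ^ (4100 v)` (`pT_le`, `pL_le`), `pow_le_pN` with
`E := 4100`, `F := 1000` (`27 * 4100000 ≤ 2 ^ 28`). -/
theorem num_N3 {n k a c1 c2 c3 : ℕ} (hk : 1 ≤ k) (ha : 1 ≤ a) (hc1 : c1 = 1000)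
    (hc2 : c2 = 2 ^ 20) (hc3 : c3 = 2 ^ 28) :
    (pM c1 c2 n k a + 1) ^ (c1 * vv n k a) ≤ pN c2 c3 (bd k) n k a := by
  have hv := vv_pos n k a
  refine pow_le_pN (E := 4100) (F := 1000) hk ha hc2 ?_ (by rw [hc1]) (by rw [hc3]; norm_num)
  have h1 : pM c1 c2 n k a ≤ 2 ^ (24 + 4041 * vv n k a) := by
    unfold pM
    calc 8 * pT c1 n k a ^ 2 * pL c2 n k a
        ≤ 2 ^ 3 * (2 ^ (2020 * vv n k a)) ^ 2 * 2 ^ (21 + vv n k a) :=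
          Nat.mul_le_mul (Nat.mul_le_mul (by norm_num) (Nat.pow_le_pow_left (pT_le hk ha hc1) 2))
            (pL_le hk hc2)
      _ = 2 ^ (24 + 4041 * vv n k a) := by
        rw [← pow_mul, ← pow_add, ← pow_add]
        congr 1
        ring
  calc pM c1 c2 n k a + 1 ≤ 2 ^ (24 + 4041 * vv n k a) + 2 ^ (24 + 4041 * vv n k a) :=
        Nat.add_le_add h1 (Nat.two_pow_pos _)
    _ = 2 ^ (24 + 4041 * vv n k a + 1) := by rw [pow_succ, mul_two]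
    _ ≤ 2 ^ (4100 * vv n k a) := by
      refine Nat.pow_le_pow_right (by norm_num) ?_
      omega

theorem num_N2 {n k a c2 c3 : ℕ} : (64 * pP c2 n k a) ^ 10 ≤ pN c2 c3 (bd k) n k a := by
  unfold pN
  apply Nat.le_mul_of_pos_left
  have : 0 < bd k := by
    unfold bd
    positivity
  positivity

end Pool.Agent.H.MP_cba12a_lc.RM
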