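import Pool.Agent.H.MP_cba12a_lc.RM.NumA

/-!
Polynomial bounds for the parameters. Model: RL/NumC.lean.
-/

namespace Pool.Agent.H.MP_cba12a_lc.RM

open Pool.Agent.H.MP_5be563_lc.PT Pool.Agent.H.MP_cba12a_lc Pool.Agent.H.MP_cba12a_lc.RK

/- PROOF. `k ≤ 2 ^ clog k ≤ bd k` (if `clog k = 0` then `k = 1`). -/
theorem k_le_bd {k : ℕ} (hk : 1 ≤ k) : k ≤ bd k := by
  unfold bd
  have h1 := Nat.le_pow_clog (b := 2) (by norm_num) k
  refine h1.trans (Nat.pow_le_pow_right (by norm_num) ?_)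
  exact Nat.le_self_pow (by norm_num) _

private theorem NumC_dbl (e T : ℕ) (hT : 1 ≤ T) : dbl e T ≤ T := by
  unfold dbl
  induction e with
  | zero => simpa using hT
  | succ e ih =>
    rw [Function.iterate_succ_apply']
    split_ifs with h
    · exact h
    · exact ih

private theorem NumC_clog (x : ℕ) : Nat.clog 2 x ≤ x :=
  Nat.clog_le_of_le_pow Nat.lt_two_pow_self.le

private theorem NumC_kl (n k a : ℕ) (y : ℕ) (hn : n + a + 1 ≤ y) (hy : k ≤ y) :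
    k * Nat.clog 2 (n + a + 1) ≤ y ^ 2 := by
  rw [pow_two]
  exact Nat.mul_le_mul hy ((NumC_clog _).trans hn)

private theorem NumC_vv (n k a : ℕ) (y : ℕ) (hn : n + a + 1 ≤ y) (hy : k ≤ y) :
    vv n k a ≤ 2 * y ^ 2 := by
  unfold vv
  have h1 := NumC_kl n k a y hn hy
  have h2 := NumC_clog (k * Nat.clog 2 (n + a + 1))
  have h3 : 1 ≤ y ^ 2 := Nat.one_le_pow _ _ (by omega)
  omega

private theorem NumC_pL (c2 n k a : ℕ) (y : ℕ) (hn : n + a + 1 ≤ y) (hy : k ≤ y) :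
    pL c2 n k a ≤ 3 * c2 * y ^ 2 := by
  unfold pL
  have h1 := NumC_vv n k a y hn hy
  have h2 := (NumC_clog (n + a + 1)).trans hn
  have h3 : y ≤ y ^ 2 := Nat.le_self_pow (by norm_num) _
  have h4 : Nat.clog 2 (n + a + 1) + vv n k a ≤ 3 * y ^ 2 := by omega
  calc c2 * (Nat.clog 2 (n + a + 1) + vv n k a) ≤ c2 * (3 * y ^ 2) := Nat.mul_le_mul_left _ h4
    _ = _ := by ring

private theorem NumC_pE (n k a : ℕ) (hk : 1 ≤ k) (ha : 1 ≤ a) (y : ℕ) (hn : n + a + 1 ≤ y)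
    (hy : k ≤ y) : pE n k a ≤ 4 * y ^ 2 := by
  unfold pE
  have hl : 1 ≤ Nat.clog 2 (n + a + 1) := Nat.clog_pos (by norm_num) (by omega)
  have h0 : 1 ≤ 4 * k * Nat.clog 2 (n + a + 1) :=
    Nat.one_le_iff_ne_zero.2 (by
      have : 0 < 4 * k * Nat.clog 2 (n + a + 1) := Nat.mul_pos (by omega) (by omega)
      omega)
  refine (NumC_dbl _ _ h0).trans ?_
  have h1 := NumC_kl n k a y hn hy
  rw [Nat.mul_assoc]
  exact Nat.mul_le_mul_left _ h1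

private theorem NumC_pT (c1 n k a : ℕ) (hk : 1 ≤ k) (ha : 1 ≤ a) (y : ℕ) (hn : n + a + 1 ≤ y)
    (hy : k ≤ y) : pT c1 n k a ≤ 4 * c1 * y ^ 2 * (4 * y ^ 2) ^ c1 := by
  unfold pT
  have h1 := NumC_vv n k a y hn hy
  have h2 : pE n k a ^ c1 ≤ (4 * y ^ 2) ^ c1 :=
    Nat.pow_le_pow_left (NumC_pE n k a hk ha y hn hy) c1
  calc 2 * (c1 * vv n k a * pE n k a ^ c1) ≤ 2 * (c1 * (2 * y ^ 2) * (4 * y ^ 2) ^ c1) :=
        Nat.mul_le_mul_left _ (Nat.mul_le_mul (Nat.mul_le_mul_left _ h1) h2)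
    _ = _ := by ring

private theorem NumC_pP (c2 n k a : ℕ) (y : ℕ) (hn : n + a + 1 ≤ y)
    (hy : k ≤ y) : pP c2 n k a ≤ 3 * c2 * y ^ 7 := by
  have hL := NumC_pL c2 n k a y hn hy
  unfold pP
  have h1 : k ^ 2 ≤ y ^ 2 := Nat.pow_le_pow_left hy 2
  have h2 : a ^ 2 ≤ y ^ 2 := Nat.pow_le_pow_left (by omega) 2
  have h3 : n + 1 ≤ y := by omega
  calc k ^ 2 * pL c2 n k a * a ^ 2 * (n + 1) ≤ y ^ 2 * (3 * c2 * y ^ 2) * y ^ 2 * y :=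
        Nat.mul_le_mul (Nat.mul_le_mul (Nat.mul_le_mul h1 hL) h2) h3
    _ = _ := by ring

private theorem NumC_pW (c1 c2 n k a : ℕ) (hk : 1 ≤ k) (ha : 1 ≤ a) (y : ℕ) (hn : n + a + 1 ≤ y)
    (hy : k ≤ y) :
    pW c1 c2 n k a ≤ 2 ^ 24 * 9 * c2 ^ 2 * y ^ 10 * (4 * c1 * y ^ 2 * (4 * y ^ 2) ^ c1) := by
  have hL := NumC_pL c2 n k a y hn hy
  have hP := NumC_pP c2 n k a y hn hy
  have hT := NumC_pT c1 n k a hk ha y hn hy
  have ha' : a ≤ y := by omega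
  unfold pW
  calc 2 ^ 24 * pP c2 n k a * a * pL c2 n k a * pT c1 n k a
      ≤ 2 ^ 24 * (3 * c2 * y ^ 7) * y * (3 * c2 * y ^ 2) * (4 * c1 * y ^ 2 * (4 * y ^ 2) ^ c1) :=
        Nat.mul_le_mul (Nat.mul_le_mul (Nat.mul_le_mul (Nat.mul_le_mul_left _ hP) ha') hL) hT
    _ = _ := by ring

/- PROOF. Let `y := n + a + bd k + 1` (or any larger number). `ℓ := clog (n + a + 1) ≤ n + a + 1 ≤ y`
(`clog x ≤ x`), `k, a ≤ y`, `vv ≤ k ℓ + 1 ≤ 2 y ^ 2`, `pL ≤ c2 * 3 y ^ 2`,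
`pE ≤ 4 k ℓ ≤ 4 y ^ 2` (all iterates in `dbl e T` are at most `T` if `1 ≤ T`, as `NumC_dbl` in
RL/NumC.lean), `pT ≤ 2 (c1 * 2 y ^ 2 * (4 y ^ 2) ^ c1)`, `pP ≤ y ^ 2 * (3 c2 y ^ 2) * y ^ 2 * y`, and the
products. Take the polynomial as in RL/NumC.lean. -/
theorem exists_poly (c1 c2 : ℕ) : ∃ P : Polynomial ℕ, ∀ n k a b : ℕ, 1 ≤ k → 1 ≤ a →
    16 * (2 * (n + 1) * pW c1 c2 n k a) ≤ P.eval (n + a + bd k) ∧
    4 * ((2 * n + 1) * (256 * pP c2 n k a + 1) + 1 + Nat.clog 2 b) *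
      (16 * (2 * (n + 1) * pW c1 c2 n k a)) ^ 2 ≤
      P.eval (n + a + bd k + Nat.clog 2 b) := by
  obtain ⟨Y, hY⟩ : ∃ Y : Polynomial ℕ, Y = Polynomial.X + 1 := ⟨_, rfl⟩
  obtain ⟨C0, hC0⟩ : ∃ C0 : ℕ, C0 = 2 ^ 24 * 9 * c2 ^ 2 := ⟨_, rfl⟩
  obtain ⟨C1, hC1⟩ : ∃ C1 : ℕ, C1 = 3 * c2 := ⟨_, rfl⟩
  obtain ⟨C2, hC2⟩ : ∃ C2 : ℕ, C2 = 4 * c1 := ⟨_, rfl⟩
  obtain ⟨W, hW⟩ : ∃ W : Polynomial ℕ,
      W = Polynomial.C C0 * Y ^ 10 * (Polynomial.C C2 * Y ^ 2 * (Polynomial.C 4 * Y ^ 2) ^ c1) :=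
    ⟨_, rfl⟩
  obtain ⟨D, hD⟩ : ∃ D : Polynomial ℕ, D = Polynomial.C 16 * (Polynomial.C 2 * Y * W) := ⟨_, rfl⟩
  have hYe : ∀ x, Y.eval x = x + 1 := fun x => by
    rw [hY, Polynomial.eval_add, Polynomial.eval_X, Polynomial.eval_one]
  have hWe : ∀ x, W.eval x =
      C0 * (x + 1) ^ 10 * (C2 * (x + 1) ^ 2 * (4 * (x + 1) ^ 2) ^ c1) := fun x => by
    rw [hW]
    simp only [Polynomial.eval_mul, Polynomial.eval_pow, Polynomial.eval_C, hYe]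
  have hDe : ∀ x, D.eval x = 16 * (2 * (x + 1) * W.eval x) := fun x => by
    rw [hD]
    simp only [Polynomial.eval_mul, Polynomial.eval_C, hYe]
  have hmain : ∀ n k a x : ℕ, 1 ≤ k → 1 ≤ a → n + a + bd k ≤ x →
      16 * (2 * (n + 1) * pW c1 c2 n k a) ≤ D.eval x := by
    intro n k a x hk ha hx
    have hkb := k_le_bd hk
    have h1 := NumC_pW c1 c2 n k a hk ha (x + 1) (by omega) (by omega)
    rw [← hC0, ← hC2] at h1
    rw [hDe, hWe]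
    have h2 : n + 1 ≤ x + 1 := by omega
    exact Nat.mul_le_mul_left _ (Nat.mul_le_mul (Nat.mul_le_mul_left _ h2) h1)
  refine ⟨D + Polynomial.C 4 * ((Polynomial.C 2 * Y) *
    (Polynomial.C 256 * (Polynomial.C C1 * Y ^ 7) + 1) + 1 + Y) *
    D ^ 2, fun n k a b hk ha => ⟨?_, ?_⟩⟩
  · rw [Polynomial.eval_add]
    exact (hmain n k a _ hk ha le_rfl).trans (Nat.le_add_right _ _)
  · rw [Polynomial.eval_add]
    refine le_trans ?_ (Nat.le_add_left _ _)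
    have hkb := k_le_bd hk
    obtain ⟨x, hx⟩ : ∃ x, x = n + a + bd k + Nat.clog 2 b := ⟨_, rfl⟩
    rw [← hx]
    have h1 := hmain n k a x hk ha (by omega)
    have hP := NumC_pP c2 n k a (x + 1) (by omega) (by omega)
    rw [← hC1] at hP
    have h2n : 2 * n + 1 ≤ 2 * (x + 1) := by omega
    have hb' : Nat.clog 2 b ≤ x + 1 := by omega
    have he : (Polynomial.C 4 * ((Polynomial.C 2 * Y) *
        (Polynomial.C 256 * (Polynomial.C C1 * Y ^ 7) + 1) + 1 + Y) * D ^ 2).eval x =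
        4 * ((2 * (x + 1)) * (256 * (C1 * (x + 1) ^ 7) + 1) + 1 + (x + 1)) *
          D.eval x ^ 2 := by
      simp only [Polynomial.eval_mul, Polynomial.eval_add, Polynomial.eval_pow, Polynomial.eval_C,
        Polynomial.eval_one, hYe]
    rw [he]
    have h5 : (2 * n + 1) * (256 * pP c2 n k a + 1) ≤
        (2 * (x + 1)) * (256 * (C1 * (x + 1) ^ 7) + 1) :=
      Nat.mul_le_mul h2n (Nat.add_le_add_right (Nat.mul_le_mul_left _ hP) 1)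
    exact Nat.mul_le_mul (Nat.mul_le_mul_left _ (by omega)) (Nat.pow_le_pow_left h1 2)

end Pool.Agent.H.MP_cba12a_lc.RM
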