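import Pool.Agent.H.MP_cba12a_lc.RM.Time

/-!
The parameters. `ℓ := clog (n + a + 1)`, `v := vv n k a = clog (k ℓ) + 1`. The constants are
`c1 := 1000`, `c2 := 2 ^ 20`; keep them as variables with hypotheses so that nothing evaluates
powers with huge exponents. Model: RL/NumA.lean.
-/

namespace Pool.Agent.H.MP_cba12a_lc.RM

open Pool.Agent.H.MP_5be563_lc.PT Pool.Agent.H.MP_cba12a_lc Pool.Agent.H.MP_cba12a_lc.RK

theorem vv_pos (n k a : ℕ) : 1 ≤ vv n k a := by unfold vv; omega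

theorem ell_pos {n a : ℕ} (ha : 1 ≤ a) : 1 ≤ Nat.clog 2 (n + a + 1) :=
  Nat.clog_pos (by norm_num) (by omega)

theorem prod_le_vv (n k a : ℕ) : 2 * (k * Nat.clog 2 (n + a + 1)) ≤ 2 ^ vv n k a := by
  unfold vv
  rw [pow_succ]
  have := Nat.le_pow_clog (b := 2) (by norm_num) (k * Nat.clog 2 (n + a + 1))
  omega

theorem k_le {n k a : ℕ} (ha : 1 ≤ a) : 2 * k ≤ 2 ^ vv n k a := by
  refine le_trans ?_ (prod_le_vv n k a)
  have h1 : k * 1 ≤ k * Nat.clog 2 (n + a + 1) := Nat.mul_le_mul_left _ (ell_pos ha)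
  omega

theorem ell_le {n k a : ℕ} (hk : 1 ≤ k) : 2 * Nat.clog 2 (n + a + 1) ≤ 2 ^ vv n k a := by
  refine le_trans ?_ (prod_le_vv n k a)
  have h1 : 1 * Nat.clog 2 (n + a + 1) ≤ k * Nat.clog 2 (n + a + 1) :=
    Nat.mul_le_mul_right _ hk
  omega

theorem pL_le {n k a c2 : ℕ} (hk : 1 ≤ k) (hc2 : c2 = 2 ^ 20) :
    pL c2 n k a ≤ 2 ^ (21 + vv n k a) := by
  unfold pL
  have h1 := ell_le (n := n) (a := a) hk
  have h2 : vv n k a < 2 ^ vv n k a := Nat.lt_two_pow_self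
  have h4 : 2 ^ (21 + vv n k a) = 2 ^ 20 * (2 * 2 ^ vv n k a) := by
    rw [pow_add, ← mul_assoc]
    norm_num
  rw [hc2, h4]
  exact Nat.mul_le_mul_left _ (by omega)

theorem pL_pos {n k a c2 : ℕ} (hc2 : c2 = 2 ^ 20) : 1 ≤ pL c2 n k a := by
  unfold pL
  have h1 := vv_pos n k a
  rw [hc2]
  exact Nat.mul_pos (Nat.two_pow_pos 20) (by omega)

/- PROOF. `2 ^ clog x < 2 * x` for `x = k ℓ ≥ 1` (`Nat.pow_pred_clog_lt_self`, or `two_pow_clog_le`), so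
`2 ^ v ≤ 4 k ℓ` and `dbl_eq`. -/
theorem pE_eq {n k a : ℕ} (hk : 1 ≤ k) (ha : 1 ≤ a) : pE n k a = 2 ^ vv n k a := by
  unfold pE
  refine dbl_eq ?_
  have hl := ell_pos (n := n) ha
  have h1 : 1 ≤ k * Nat.clog 2 (n + a + 1) := Nat.mul_pos hk hl
  have h2 := two_pow_clog_le (k * Nat.clog 2 (n + a + 1)) h1
  unfold vv
  rw [pow_succ, mul_assoc 4 k]
  omega

theorem pT_eq {n k a c1 : ℕ} (hk : 1 ≤ k) (ha : 1 ≤ a) :
    pT c1 n k a = 2 * (c1 * vv n k a * 2 ^ (c1 * vv n k a)) := by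
  unfold pT
  rw [pE_eq hk ha, ← pow_mul, mul_comm (vv n k a) c1]

/-- `k ≤ 2 ^ v` -/
theorem num_kap {n k a c1 : ℕ} (ha : 1 ≤ a) (hc1 : c1 = 1000) :
    30 * (25 * vv n k a) + 68 * Nat.clog 2 k + 32 ≤ c1 * vv n k a := by
  have h0 := k_le (n := n) (k := k) ha
  have h1 : Nat.clog 2 k ≤ vv n k a := Nat.clog_le_of_le_pow (by omega)
  have h2 := vv_pos n k a
  rw [hc1]
  omega

theorem num_r {n k a c2 : ℕ} (hk : 1 ≤ k) (ha : 1 ≤ a) (hc2 : c2 = 2 ^ 20) :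
    2 * k ^ 2 * pL c2 n k a ≤ 2 ^ (25 * vv n k a) := by
  have h1 : k ≤ 2 ^ vv n k a := le_trans (by omega) (k_le (n := n) (k := k) ha)
  have h2 := pL_le (n := n) (a := a) hk hc2
  have h3 := vv_pos n k a
  calc 2 * k ^ 2 * pL c2 n k a
      ≤ 2 ^ 1 * (2 ^ vv n k a) ^ 2 * 2 ^ (21 + vv n k a) :=
        Nat.mul_le_mul (Nat.mul_le_mul (by norm_num) (Nat.pow_le_pow_left h1 2)) h2
    _ = 2 ^ (1 + vv n k a * 2 + (21 + vv n k a)) := by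
        rw [← pow_mul, ← pow_add, ← pow_add]
    _ ≤ 2 ^ (25 * vv n k a) := Nat.pow_le_pow_right (by norm_num) (by omega)

/- PROOF. `pT ≤ 2 ^ (2020 v)`: `1000 v ≤ 2 ^ (10 + v)`. -/
theorem pT_le {n k a c1 : ℕ} (hk : 1 ≤ k) (ha : 1 ≤ a) (hc1 : c1 = 1000) :
    pT c1 n k a ≤ 2 ^ (2020 * vv n k a) := by
  rw [pT_eq hk ha]
  have hv := vv_pos n k a
  generalize vv n k a = v at hv ⊢
  have h5 : c1 * v ≤ 2 ^ (10 + v) := by
    rw [pow_add, hc1]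
    have h6 : v ≤ 2 ^ v := Nat.lt_two_pow_self.le
    calc 1000 * v ≤ 2 ^ 10 * v := Nat.mul_le_mul_right _ (by norm_num)
      _ ≤ 2 ^ 10 * 2 ^ v := Nat.mul_le_mul_left _ h6
  calc 2 * (c1 * v * 2 ^ (c1 * v)) ≤ 2 ^ 1 * (2 ^ (10 + v) * 2 ^ (c1 * v)) :=
        Nat.mul_le_mul (by norm_num) (Nat.mul_le_mul_right _ h5)
    _ = 2 ^ (1 + (10 + v + c1 * v)) := by rw [← pow_add, ← pow_add]
    _ ≤ 2 ^ (2020 * v) := by
        refine Nat.pow_le_pow_right (by norm_num) ?_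
        rw [hc1]
        omega

/- PROOF. `a ≤ 2 ^ ℓ`, `n + 1 ≤ 2 ^ ℓ`, `k ≤ 2 ^ v`: `log₂` of the left side is at most
`13 + 2 v + (21 + v) + 2 ℓ + ℓ + ℓ ≤ 2 ^ 20 (ℓ + v)`. -/
theorem num_b {n k a c2 : ℕ} (hk : 1 ≤ k) (ha : 1 ≤ a) (hc2 : c2 = 2 ^ 20) :
    8192 * pP c2 n k a * a ≤ 2 ^ pL c2 n k a := by
  unfold pP
  have hv := vv_pos n k a
  have hL := pL_le (n := n) (a := a) hk hc2
  have hk2 : k ≤ 2 ^ vv n k a := le_trans (by omega) (k_le (n := n) (k := k) ha)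
  have hn : n + a + 1 ≤ 2 ^ Nat.clog 2 (n + a + 1) := Nat.le_pow_clog (by norm_num) _
  have hl1 := ell_pos (n := n) ha
  have hE : 34 + 4 * Nat.clog 2 (n + a + 1) + 3 * vv n k a ≤ pL c2 n k a := by
    unfold pL
    rw [hc2]
    norm_num
    omega
  generalize vv n k a = v at *
  generalize pL c2 n k a = L at *
  generalize Nat.clog 2 (n + a + 1) = l at *
  have hn1 : n + 1 ≤ 2 ^ l := by omega
  have ha1 : a ≤ 2 ^ l := by omega
  calc 8192 * (k ^ 2 * L * a ^ 2 * (n + 1)) * a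
      ≤ 2 ^ 13 * ((2 ^ v) ^ 2 * 2 ^ (21 + v) * (2 ^ l) ^ 2 * 2 ^ l) * 2 ^ l := by
        gcongr
        norm_num
    _ = 2 ^ (34 + 4 * l + 3 * v) := by
        rw [← pow_mul, ← pow_mul]
        simp only [← pow_add]
        congr 1
        ring
    _ ≤ 2 ^ L := Nat.pow_le_pow_right (by norm_num) hE

/- PROOF. `n, n + 1, a ≤ 2 ^ ℓ`, `k ≤ 2 ^ v`, `pL_le`, `pT_le`: `log₂` of the left side is at most
`67 + 5 ℓ + 5 v + 2020 v ≤ 2 ^ 20 (ℓ + v)`. -/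
theorem num_L {n k a c1 c2 : ℕ} (hk : 1 ≤ k) (ha : 1 ≤ a) (hc1 : c1 = 1000)
    (hc2 : c2 = 2 ^ 20) :
    2 * n * k * pW c1 c2 n k a ≤ 2 ^ pL c2 n k a := by
  have hT := pT_le (n := n) hk ha hc1
  unfold pW pP
  have hv := vv_pos n k a
  have hL := pL_le (n := n) (a := a) hk hc2
  have hk2 : k ≤ 2 ^ vv n k a := le_trans (by omega) (k_le (n := n) (k := k) ha)
  have hn : n + a + 1 ≤ 2 ^ Nat.clog 2 (n + a + 1) := Nat.le_pow_clog (by norm_num) _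
  have hl1 := ell_pos (n := n) ha
  have hE : 67 + 5 * Nat.clog 2 (n + a + 1) + 5 * vv n k a + 2020 * vv n k a ≤
      pL c2 n k a := by
    unfold pL
    rw [hc2]
    norm_num
    omega
  generalize vv n k a = v at *
  generalize pL c2 n k a = L at *
  generalize pT c1 n k a = T at *
  generalize Nat.clog 2 (n + a + 1) = l at *
  have hn0 : n ≤ 2 ^ l := by omega
  have hn1 : n + 1 ≤ 2 ^ l := by omega
  have ha1 : a ≤ 2 ^ l := by omega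
  calc 2 * n * k * (2 ^ 24 * (k ^ 2 * L * a ^ 2 * (n + 1)) * a * L * T)
      ≤ 2 * 2 ^ l * 2 ^ v * (2 ^ 24 * ((2 ^ v) ^ 2 * 2 ^ (21 + v) * (2 ^ l) ^ 2 * 2 ^ l) *
        2 ^ l * 2 ^ (21 + v) * 2 ^ (2020 * v)) := by gcongr
    _ = 2 ^ (67 + 5 * l + 5 * v + 2020 * v) := by
        rw [← pow_mul, ← pow_mul]
        simp only [← pow_add, ← pow_succ']
        congr 1
        ring
    _ ≤ 2 ^ L := Nat.pow_le_pow_right (by norm_num) hE

end Pool.Agent.H.MP_cba12a_lc.RM
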