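import Pool.Agent.H.MP_cba12a_lc.RK.Ext
import Pool.Agent.H.MP_cba12a_lc.RK.EstV
import Pool.Agent.H.MP_cba12a_lc.RM.Chain

/-!
The main step: if the mass of the pivotal points of some variable is not small, and a term of large
mass has few invisible variables, then some candidate passes the test.
-/

namespace Pool.Agent.H.MP_cba12a_lc.RM

open Finset Pool.Agent.H.MP_cba12a_lc Pool.Agent.H.MP_cba12a_lc.RK

variable {n m : ℕ} {o : Fin n → Bool} {f q : (Fin n → Bool) → Bool} {ω : Fin m → Fin n → Bool}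
  {R : ℕ} {τ : ℝ} {h : List (List Lit)} {V : List Lit}

private theorem step_card_le_pr {E : Finset (Fin n → Bool)} {P : (Fin n → Bool) → Prop}
    (hE : ∀ x ∈ E, P x) : (E.card : ℝ) / 2 ^ n ≤ pr P := by
  classical
  rw [pr_def, mu_eq_card]
  refine div_le_div_of_nonneg_right ?_ (by positivity)
  have h1 : E ⊆ univ.filter fun x => decide (P x) = true := by
    intro x hx
    rw [mem_filter]
    exact ⟨mem_univ _, decide_eq_true (hE x hx)⟩
  exact_mod_cast card_le_card h1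

private theorem step_pr_on (A : Finset (Fin n)) : pr (fun x => On o A x) = (1 / 2 : ℝ) ^ A.card := by
  have h1 := pr_on o A (fun _ => True)
  have h2 : pr (fun _ : Fin n → Bool => True) = 1 := by
    classical
    rw [pr_def]
    unfold mu ct
    rw [Fintype.card_fun, Fintype.card_fin, Fintype.card_bool]
    simp
  rw [h2, mul_one] at h1
  rw [← h1]
  exact pr_congr fun x => by simp

/-- the main step -/
theorem step_m {F : Finset (Finset (Fin n))} {rk : Finset (Fin n) → ℕ}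
    {k L K Λ c b N M A0 B Θ : ℕ} {ρ : ℝ} {i : Fin n}
    (hS : Smp o f q ω R τ V) (hR : RefF o q F k L) (hrk : Function.Injective rk)
    (hFV : ∀ T ∈ F, ∀ j ∈ T, ((j : ℕ), o j) ∈ V)
    (hr : h.length ≤ R) (hh : ∀ D ∈ h, ∀ l ∈ D, l ∈ V)
    (hc : (27 / 64 : ℝ) ^ c * (2 * K) < 1) (hK : k ≤ K)
    (hΘ : Θ = 2 * (Λ * 2 ^ Λ)) (hMb : 8 * Θ ^ 2 * b ≤ M) (hb : (1 / 2 : ℝ) ^ b ≤ ρ / (4 * A0))
    (hN1 : (2 * k * L ^ 2 + 1) ^ (3 * c) ≤ N) (hN3 : (M + 1) ^ Λ ≤ N)
    (hN2 : (1 / ρ) ^ 10 ≤ (N : ℝ)) (hA0 : 1 ≤ A0)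
    (hτ1 : 256 * τ ≤ ρ) (hτ2 : (32 * L + 12) * τ ≤ ρ) (hτ3 : 16 * Θ * τ ≤ ρ / (4 * A0))
    (hτ4 : 4 * (A0 + 1) * τ ≤ ρ) (hB : 1 ≤ ρ / 2 * B)
    (hρ : 2 * K * ρ ≤ mu (pv q h i (o i) [])) (hM : 0 < mu (pv q h i (o i) []))
    (hstr : ∀ V : Finset (Fin n), (∀ j, j ≠ i → j ∉ V → k * L * (cU o q h i j).card ≤
      k * L * (cD o q h i j).card + (pvS o q h i).card) →
      ∃ T ∈ F, i ∈ T ∧ (pvS o q h i).card ≤ 2 * K * (fstT o q F rk h i T).card ∧
      (T.erase i \ V).card ≤ Λ) :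
    goodM A0 B N (3 * c) M Θ Λ (4 * k * L) V (smp f ω) h ≠ [] := by
  classical
  have hτ := hS.hτ
  have hm' : (0 : ℝ) < m := by exact_mod_cast hS.hm
  have hρ0 : 0 < ρ := by linarith
  have hhO : OrL o h := fun D hD l hl => hS.lits l (hh D hD l hl)
  have hp : (0 : ℝ) < 2 ^ n := by positivity
  have hMS : 0 < (pvS o q h i).card := by
    rw [mu_pv_eq] at hM
    by_contra hcon
    have h0 : (pvS o q h i).card = 0 := by omega
    rw [h0] at hM
    simp at hM
  have hk : 1 ≤ k := by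
    by_contra hcon
    have h1 := sum_fstT (h := h) (i := i) hR hrk
    have h2 : F.filter (fun T => i ∈ T) = ∅ := by
      refine card_eq_zero.1 ?_
      have := hR.read i
      omega
    rw [h2, sum_empty] at h1
    omega
  have hk' : (1 : ℝ) ≤ k := by exact_mod_cast hk
  have hK' : (k : ℝ) ≤ K := by exact_mod_cast hK
  have hK1 : (1 : ℝ) ≤ K := hk'.trans hK'
  have hMκ : (8 * ((4 * k * L : ℕ) : ℝ) + 12) * τ ≤ mu (pv q h i (o i) []) := by
    have h1 : (8 * ((4 * k * L : ℕ) : ℝ) + 12) * τ ≤ k * ((32 * L + 12) * τ) := by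
      push_cast
      have h0 : 12 * τ ≤ k * (12 * τ) := le_mul_of_one_le_left (by positivity) hk'
      nlinarith
    have h2 : (k : ℝ) * ((32 * L + 12) * τ) ≤ k * ρ :=
      mul_le_mul_of_nonneg_left hτ2 (by positivity)
    have h3 : 0 < (k : ℝ) * ρ := by positivity
    have h4 : (k : ℝ) * ρ ≤ K * ρ := mul_le_mul_of_nonneg_right hK' hρ0.le
    linarith
  set Vs : List Lit := vis (4 * k * L) V (smp f ω) h ((i : ℕ), o i) with hVs
  obtain ⟨T, hTF, hiT, hT1, hT3⟩ := hstr (vars o Vs) (by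
    intro j hj hjV
    by_cases hjVl : ((j : ℕ), o j) ∈ V
    · have h1 : ¬ (4 * mu (pv q h i (o i) []) ≤ ((4 * k * L : ℕ) : ℝ) * beta o q h i j) :=
        fun hc => hjV (mem_vars.2 (vis_of hS hr hhO hMκ hj hjVl hc))
      rw [mu_pv_eq] at h1
      unfold beta at h1
      have h2 := not_le.1 h1
      rw [mul_div_assoc', mul_div_assoc', div_lt_div_iff_of_pos_right hp] at h2
      push_cast at h2
      have h3 : (k : ℝ) * L * (cU o q h i j).card ≤
          k * L * (cD o q h i j).card + (pvS o q h i).card := by nlinarith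
      exact_mod_cast h3
    · have h1 := cU_le (h := h) hR hrk hj
      have h2 : F.filter (fun T => i ∈ T ∧ j ∈ T) = ∅ := by
        rw [filter_eq_empty_iff]
        intro T hT hc
        exact hjVl (hFV T hT j hc.2)
      rw [h2, sum_empty, add_zero] at h1
      have := Nat.mul_le_mul_left (k * L) h1
      omega)
  set e : ℝ := ((fstT o q F rk h i T).card : ℝ) / 2 ^ n with he
  have hTk : mu (pv q h i (o i) []) ≤ 2 * K * e := by
    rw [mu_pv_eq, he, mul_div_assoc', div_le_div_iff_of_pos_right hp]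
    exact_mod_cast hT1
  have heρ : ρ ≤ e := by
    have h1 : 2 * K * ρ ≤ 2 * K * e := hρ.trans hTk
    exact le_of_mul_le_mul_left h1 (by positivity)
  have he0 : 0 < e := by linarith
  -- first extension
  have hVsV : ∀ l ∈ Vs, l ∈ V := fun l hl => by
    rw [hVs] at hl
    unfold vis at hl
    exact (List.mem_filter.1 hl).1
  have hVsN : (Vs.length + 1) ^ (3 * c) ≤ N := by
    have h1 := length_vis_le (F := F) (rk := rk) (k := k) (L := L) hS hR hrk hr hhO hM hMκ
    exact (Nat.pow_le_pow_left (by rw [hVs]; omega) _).trans hN1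
  obtain ⟨A, hA1, hA2, -, hA4⟩ := ext_ex (F := F) (rk := rk) (T := T) (k := K) (N := N) (c := c)
    (ρ := ρ) (i := i) (Z := []) (U := Vs) hS hr hhO hτ1 hc (hFV T hTF) heρ hTk hVsV (by simp)
    hVsN hN2
  have hvars : ∀ {Z : List Lit}, (∀ l ∈ Z, ∃ j ∈ T.erase i, l = ((j : ℕ), o j)) →
      vars o Z ⊆ T.erase i := by
    intro Z hZ j hj
    obtain ⟨j', hj', hjj⟩ := hZ _ (mem_vars.1 hj)
    have : j = j' := Fin.ext (congrArg Prod.fst hjj)
    rw [this]
    exact hj'
  have hAT := hvars hA2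
  have hAsub : (T.erase i \ vars o A).card ≤ Λ := by
    refine (card_le_card ?_).trans hT3
    intro j hj
    rw [mem_sdiff] at hj ⊢
    refine ⟨hj.1, fun hc => hj.2 (mem_vars.2 (hA4 j hj.1 (mem_vars.1 hc)))⟩
  have hAV : ∀ l ∈ A, l ∈ V := by
    intro l hl
    obtain ⟨j, hj, rfl⟩ := hA2 l hl
    exact hFV T hTF j (mem_of_mem_erase hj)
  have hA0' : (1 : ℝ) ≤ A0 := by exact_mod_cast hA0
  -- second stage
  have hC0V : ∀ l ∈ ((i : ℕ), o i) :: A, l ∈ V := by
    intro l hl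
    rcases List.mem_cons.1 hl with rfl | hl
    · exact hFV T hTF i hiT
    · exact hAV l hl
  have hC0T : vars o (((i : ℕ), o i) :: A) ⊆ T := by
    rw [vars_cons]
    intro j hj
    rw [mem_insert] at hj
    rcases hj with rfl | hj
    · exact hiT
    · exact mem_of_mem_erase (hAT hj)
  have hC0Λ : (T \ vars o (((i : ℕ), o i) :: A)).card ≤ Λ := by
    refine (card_le_card ?_).trans hAsub
    intro j hj
    rw [vars_cons, mem_sdiff, mem_insert, not_or] at hj
    rw [mem_sdiff, mem_erase]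
    exact ⟨⟨hj.2.1, hj.1⟩, hj.2.2⟩
  obtain ⟨Cd, hCd1, hCd2, hCd3, hKT, hFPK⟩ := mem_chn hS (T := T)
    (fun x hx => (hR.iff x).2 ⟨T, hTF, hx⟩) (hFV T hTF) hC0V hC0T hC0Λ hΘ hR.up
    (z0 := ρ / (4 * A0)) hτ3 (by positivity) hb hMb hN3
  set K : Finset (Fin n) := vars o Cd with hKdef
  have hCdO : ∀ l ∈ Cd, ∃ j : Fin n, l = ((j : ℕ), o j) := fun l hl => hS.lits l (hCd2 l hl)
  have hCdn : ∀ l ∈ Cd, l.1 < n := by
    intro l hl
    obtain ⟨j, rfl⟩ := hCdO l hl
    exact j.2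
  have hsatC : ∀ x : Fin n → Bool, sat (List.ofFn x) Cd = true ↔ On o K x := fun x =>
    RK.sat_iff_on hCdO
  have hFPK' : pr (fun x => On o K x ∧ q x = false) ≤ e / (4 * A0) :=
    hFPK.trans (div_le_div_of_nonneg_right heρ (by positivity))
  -- the test
  have hevF : mu (ev q false Cd h) ≤ e / (4 * A0) := by
    refine le_trans ?_ hFPK'
    rw [mu_eq_pr]
    refine pr_mono fun x hx => ?_
    rw [ev_iff] at hx
    exact ⟨(hsatC x).1 hx.2.1, hx.1⟩
  have hevT : e ≤ mu (ev q true Cd h) := by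
    rw [mu_eq_pr, he]
    refine step_card_le_pr fun x hx => ?_
    have h1 := (mem_fstT.1 hx).1
    rw [pv_iff] at h1
    rw [ev_iff, hsatC]
    exact ⟨h1.2.1, (on_of_fstT hx).mono hKT, h1.2.2.1⟩
  have hcT := abs_lt.1 (cnt_est hS hr hhO true hCdn)
  have hcF := abs_lt.1 (cnt_est hS hr hhO false hCdn)
  have hacc : acc8 A0 B (smp f ω) h Cd = true := by
    unfold acc8
    rw [Bool.and_eq_true, decide_eq_true_iff, decide_eq_true_iff, length_smp]
    constructor
    · have h1 : (cnt (smp f ω) false Cd h : ℝ) / m ≤ e / (4 * A0) + 2 * τ := by linarith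
      have h2 : e - 2 * τ ≤ (cnt (smp f ω) true Cd h : ℝ) / m := by linarith
      have h3 : (e / (4 * A0) + 2 * τ) * A0 ≤ e - 2 * τ := by
        have h4 : e / (4 * A0) * A0 = e / 4 := by field_simp
        rw [add_mul, h4]
        nlinarith
      have h4 : (cnt (smp f ω) false Cd h : ℝ) / m * A0 ≤ (cnt (smp f ω) true Cd h : ℝ) / m :=
        (mul_le_mul_of_nonneg_right h1 (by positivity)).trans (h3.trans h2)
      rw [div_mul_eq_mul_div, div_le_div_iff_of_pos_right hm'] at h4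
      exact_mod_cast h4
    · have h2 : ρ / 2 ≤ (cnt (smp f ω) true Cd h : ℝ) / m := by linarith
      have h3 : 1 ≤ (cnt (smp f ω) true Cd h : ℝ) / m * B :=
        hB.trans (mul_le_mul_of_nonneg_right h2 (by positivity))
      rw [div_mul_eq_mul_div, le_div_iff₀ hm', one_mul] at h3
      exact_mod_cast h3
  refine List.ne_nil_of_mem (a := Cd) ?_
  unfold goodM
  rw [List.mem_filter]
  refine ⟨?_, hacc⟩
  rw [List.mem_flatMap]
  refine ⟨((i : ℕ), o i), hFV T hTF i hiT, ?_⟩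
  unfold candM
  rw [List.mem_flatMap]
  exact ⟨A, hA1, hCd1⟩

end Pool.Agent.H.MP_cba12a_lc.RM
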