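import Pool.Agent.H.MP_cba12a_lc.RM.Algo
import Pool.Agent.H.MP_cba12a_lc.RK.Time

/-!
The learner as a function of its input, and its running time.
-/

namespace Pool.Agent.H.MP_cba12a_lc.RM

open Pool.Agent.H.MP_5be563_lc.PT Pool.Agent.H.MP_cba12a_lc Pool.Agent.H.MP_cba12a_lc.RK

/-- the basic parameter -/
def vv (n k a : ℕ) : ℕ := Nat.clog 2 (k * Nat.clog 2 (n + a + 1)) + 1

/-- the time bound `2 ^ (log₂ k) ^ 2` -/
def bd (k : ℕ) : ℕ := 2 ^ (Nat.clog 2 k ^ 2)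

/-- bound for the length of the terms; `c2` is a constant -/
def pL (c2 n k a : ℕ) : ℕ := c2 * (Nat.clog 2 (n + a + 1) + vv n k a)

/-- `2 ^ vv n k a` -/
def pE (n k a : ℕ) : ℕ := dbl (vv n k a) (4 * k * Nat.clog 2 (n + a + 1))

/-- `1 / pT` is the threshold for the influence; `c1 * vv n k a` is the number of steps -/
def pT (c1 n k a : ℕ) : ℕ := 2 * (c1 * vv n k a * pE n k a ^ c1)

/-- bound for the length of the lists of the second stage -/
def pM (c1 c2 n k a : ℕ) : ℕ := 8 * pT c1 n k a ^ 2 * pL c2 n k a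

/-- the number of rounds, up to a constant -/
def pP (c2 n k a : ℕ) : ℕ := k ^ 2 * pL c2 n k a * a ^ 2 * (n + 1)

/-- bound for the lengths of the lists of the search -/
def pN (c2 c3 t n k a : ℕ) : ℕ := (4 * t * (n + a + 1)) ^ c3 * (64 * pP c2 n k a) ^ 10

/-- `1 / pW` is the accuracy of the estimates -/
def pW (c1 c2 n k a : ℕ) : ℕ := 2 ^ 24 * pP c2 n k a * a * pL c2 n k a * pT c1 n k a

/-- the learner, with the value `t = bd k` as a further argument -/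
def learnT (c1 c2 c3 : ℕ) (p : (ℕ × ℕ × ℕ × Samples) × ℕ) : List (List Lit) :=
  fin4 p.1.2.2.1 p.1.2.2.2
    (coreM (32 * p.1.2.2.1) (128 * pP c2 p.1.1 p.1.2.1 p.1.2.2.1)
      (256 * pP c2 p.1.1 p.1.2.1 p.1.2.2.1)
      (pN c2 c3 p.2 p.1.1 p.1.2.1 p.1.2.2.1)
      (3 * (Nat.clog 2 (2 * (p.1.2.1 ^ 2 * pL c2 p.1.1 p.1.2.1 p.1.2.2.1)) + 1))
      (pM c1 c2 p.1.1 p.1.2.1 p.1.2.2.1)
      (pT c1 p.1.1 p.1.2.1 p.1.2.2.1)
      (c1 * vv p.1.1 p.1.2.1 p.1.2.2.1)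
      (4 * p.1.2.1 * pL c2 p.1.1 p.1.2.1 p.1.2.2.1)
      (orient p.1.1 (2 * (p.1.1 + 1) * pW c1 c2 p.1.1 p.1.2.1 p.1.2.2.1)
        p.1.2.2.2) p.1.2.2.2)

/-- the learner -/
def learn (c1 c2 c3 : ℕ) (p : ℕ × ℕ × ℕ × Samples) : List (List Lit) :=
  learnT c1 c2 c3 (p, bd p.2.1)

theorem time_vv {α : Type} [Enc α] {n k a : α → ℕ} (hn : Poly n) (hk : Poly k)
    (ha : Poly a) : Poly (fun p => vv (n p) (k p) (a p)) := by
  unfold vv
  fun_prop

theorem time_pL (c2 : ℕ) {α : Type} [Enc α] {n k a : α → ℕ} (hn : Poly n) (hk : Poly k)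
    (ha : Poly a) : Poly (fun p => pL c2 (n p) (k p) (a p)) := by
  unfold pL
  have h := time_vv hn hk ha
  fun_prop

theorem time_pE {α : Type} [Enc α] {n k a : α → ℕ} (hn : Poly n) (hk : Poly k)
    (ha : Poly a) : Poly (fun p => pE (n p) (k p) (a p)) := by
  unfold pE
  have h := time_vv hn hk ha
  fun_prop

theorem time_pT (c1 : ℕ) {α : Type} [Enc α] {n k a : α → ℕ}
    (hn : Poly n) (hk : Poly k) (ha : Poly a) :
    Poly (fun p => pT c1 (n p) (k p) (a p)) := by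
  unfold pT
  have h := time_vv hn hk ha
  have h' := time_pE hn hk ha
  fun_prop

theorem time_pM (c1 c2 : ℕ) {α : Type} [Enc α] {n k a : α → ℕ}
    (hn : Poly n) (hk : Poly k) (ha : Poly a) :
    Poly (fun p => pM c1 c2 (n p) (k p) (a p)) := by
  unfold pM
  have h := time_pT c1 hn hk ha
  have h' := time_pL c2 hn hk ha
  fun_prop

theorem time_pP (c2 : ℕ) {α : Type} [Enc α] {n k a : α → ℕ} (hn : Poly n) (hk : Poly k)
    (ha : Poly a) : Poly (fun p => pP c2 (n p) (k p) (a p)) := by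
  unfold pP
  have h := time_pL c2 hn hk ha
  fun_prop

theorem time_pN (c2 c3 : ℕ) {α : Type} [Enc α] {t n k a : α → ℕ} (ht : Poly t)
    (hn : Poly n) (hk : Poly k) (ha : Poly a) :
    Poly (fun p => pN c2 c3 (t p) (n p) (k p) (a p)) := by
  unfold pN
  have h := time_pP c2 hn hk ha
  fun_prop

theorem time_pW (c1 c2 : ℕ) {α : Type} [Enc α] {n k a : α → ℕ}
    (hn : Poly n) (hk : Poly k) (ha : Poly a) :
    Poly (fun p => pW c1 c2 (n p) (k p) (a p)) := by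
  unfold pW
  have h1 := time_pL c2 hn hk ha
  have h2 := time_pT c1 hn hk ha
  have h3 := time_pP c2 hn hk ha
  fun_prop

theorem poly_learnT (c1 c2 c3 : ℕ) : Poly (learnT c1 c2 c3) := by
  unfold learnT
  have ht : Poly (fun p : (ℕ × ℕ × ℕ × Samples) × ℕ => p.2) := by fun_prop
  have hn : Poly (fun p : (ℕ × ℕ × ℕ × Samples) × ℕ => p.1.1) := by fun_prop
  have hk : Poly (fun p : (ℕ × ℕ × ℕ × Samples) × ℕ => p.1.2.1) := by fun_prop
  have ha : Poly (fun p : (ℕ × ℕ × ℕ × Samples) × ℕ => p.1.2.2.1) := by fun_prop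
  have hS : Poly (fun p : (ℕ × ℕ × ℕ × Samples) × ℕ => p.1.2.2.2) := by fun_prop
  have h0 := time_vv hn hk ha
  have h1 := time_pN c2 c3 ht hn hk ha
  have h2 := time_pT c1 hn hk ha
  have h3 := time_pL c2 hn hk ha
  have h4 := time_pW c1 c2 hn hk ha
  have h7 := time_pP c2 hn hk ha
  have h8 := time_pM c1 c2 hn hk ha
  have h5 : Poly (fun p : (ℕ × ℕ × ℕ × Samples) × ℕ => 2 * (p.1.1 + 1) *
      pW c1 c2 p.1.1 p.1.2.1 p.1.2.2.1) := by fun_prop
  have h6 := poly_orient hn h5 hS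
  exact poly_fin4R ha hS (poly_coreM (by fun_prop) (by fun_prop) (by fun_prop) h1
    (by fun_prop) h8 h2 (by fun_prop) (by fun_prop) h6 hS)

theorem time_learn (c1 c2 c3 : ℕ) : ∃ P : Polynomial ℕ, ComputedInTime (learn c1 c2 c3)
    (fun i => P.eval (bd i.2.1 + (code i).length)) := by
  refine computedInTime_of_run (f := learn c1 c2 c3)
    (g := fun p : ℕ × ℕ × ℕ × Samples => bd p.2.1)
    (run_search (g := fun p : ℕ × ℕ × ℕ × Samples => bd p.2.1) ?_
      (poly_learnT c1 c2 c3))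
  unfold bd
  exact poly_dblT (by fun_prop) (by fun_prop)

end Pool.Agent.H.MP_cba12a_lc.RM
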